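import Pool.Agent.Lib.MP_651af7_nt.Am.Nev

/-! Equivalent multidegrees. -/

namespace Pool.Agent.Lib.MP_651af7_nt.Am

open Module

variable (F : Type) {K : Type} [Field F] [Field K] [Algebra F K] {R N : ℕ}
  (ξ : Fin R × Fin N → K)

/-- After a common shift, the forms of multidegrees `Y` and `Y'` differ by a fixed factor. -/
def Eqv (Y Y' : Fin R → ℕ) : Prop :=
  ∃ (f : K) (Z : Fin R → ℕ), f ≠ 0 ∧ ∀ z, z ∈ bm F ξ (Y + Z) ↔ f * z ∈ bm F ξ (Y' + Z)

/-- The forms of multidegrees `A` and `B` differ by a fixed factor. -/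
def eqv_one (A B : Fin R → ℕ) : Prop :=
  ∃ f : K, f ≠ 0 ∧ ∀ z, z ∈ bm F ξ A ↔ f * z ∈ bm F ξ B

variable {F ξ}

theorem eqv_split (a : ℕ) : ∀ ν : Fin N → ℕ, a ≤ ∑ i, ν i →
    ∃ ν' : Fin N → ℕ, (∀ i, ν' i ≤ ν i) ∧ ∑ i, ν' i = a := by
  induction a with
  | zero => exact fun ν _ => ⟨0, fun _ => Nat.zero_le _, by simp⟩
  | succ a ih =>
    intro ν h
    obtain ⟨ν', h1, h2⟩ := ih ν (by omega)
    obtain ⟨i, -, hi⟩ := Finset.exists_lt_of_sum_lt (s := Finset.univ) (f := ν') (g := ν) (by omega)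
    refine ⟨ν' + Pi.single i 1, fun j => ?_, by simp [Finset.sum_add_distrib, h2]⟩
    rcases eq_or_ne j i with rfl | e
    · simpa using hi
    · simpa [e] using h1 j

theorem eqv_shift {A B : Fin R → ℕ} {f : K} (h : ∀ z ∈ bm F ξ A, f * z ∈ bm F ξ B)
    (W : Fin R → ℕ) : ∀ z ∈ bm F ξ (A + W), f * z ∈ bm F ξ (B + W) := by
  intro z hz
  refine Submodule.span_induction (p := fun z _ => f * z ∈ bm F ξ (B + W)) ?_
    (by rw [mul_zero]; exact zero_mem _) (fun _ _ _ _ h1 h2 => by rw [mul_add]; exact add_mem h1 h2)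
    (fun a _ _ h => by rw [mul_smul_comm]; exact Submodule.smul_mem _ a h) hz
  rintro _ ⟨μ, hμ, rfl⟩
  choose ν h1 h2 using fun b => eqv_split (A b) (fun a => μ (b, a))
    (by rw [hμ]; exact Nat.le_add_right _ _)
  have h3 : ∏ s, ξ s ^ μ s = (∏ s, ξ s ^ ν s.1 s.2) * ∏ s, ξ s ^ (μ s - ν s.1 s.2) := by
    rw [← Finset.prod_mul_distrib]
    exact Finset.prod_congr rfl fun s _ => by rw [← pow_add, Nat.add_sub_cancel' (h1 s.1 s.2)]
  rw [h3, ← mul_assoc]
  refine nev_mul (h _ (Submodule.subset_span ⟨fun s => ν s.1 s.2, h2, rfl⟩))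
    (Submodule.subset_span ⟨fun s => μ s - ν s.1 s.2, fun b => ?_, rfl⟩)
  rw [Finset.sum_tsub_distrib _ fun a _ => h1 b a, hμ, h2]
  exact Nat.add_sub_cancel_left _ _

theorem eqv_one.refl (A : Fin R → ℕ) : eqv_one F ξ A A :=
  ⟨1, one_ne_zero, fun z => by rw [one_mul]⟩

theorem eqv_one.symm {A B : Fin R → ℕ} (h : eqv_one F ξ A B) : eqv_one F ξ B A := by
  obtain ⟨f, h0, h⟩ := h
  exact ⟨f⁻¹, inv_ne_zero h0, fun z => by rw [h, mul_inv_cancel_left₀ h0]⟩

theorem eqv_one.trans {A B C : Fin R → ℕ} (h : eqv_one F ξ A B) (h' : eqv_one F ξ B C) :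
    eqv_one F ξ A C := by
  obtain ⟨f, h0, h⟩ := h
  obtain ⟨g, h1, h'⟩ := h'
  exact ⟨g * f, mul_ne_zero h1 h0, fun z => by rw [h, h', mul_assoc]⟩

theorem eqv_one.add {A B : Fin R → ℕ} (h : eqv_one F ξ A B) (W : Fin R → ℕ) :
    eqv_one F ξ (A + W) (B + W) := by
  obtain ⟨f, h0, h⟩ := h
  refine ⟨f, h0, fun z => ⟨eqv_shift (fun z => (h z).1) W z, fun hz => ?_⟩⟩
  have := eqv_shift (f := f⁻¹) (fun z hz => (h _).2 (by rwa [mul_inv_cancel_left₀ h0])) W _ hz
  rwa [inv_mul_cancel_left₀ h0] at this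

theorem eqv_diff {n : ℕ} {P Q : Fin n → Fin R → ℕ} (h : ∀ i, Eqv F ξ (P i) (Q i)) (μ : Fin n → ℤ) :
    ∃ A B, eqv_one F ξ A B ∧ ∀ b, (A b : ℤ) = B b + ∑ i, μ i * ((P i b : ℤ) - Q i b) := by
  let D : AddSubgroup (Fin R → ℤ) :=
    { carrier := {w | ∃ A B, eqv_one F ξ A B ∧ ∀ b, (A b : ℤ) = B b + w b}
      zero_mem' := ⟨0, 0, .refl _, fun b => by simp⟩
      add_mem' := by
        rintro w w' ⟨A, B, h1, h2⟩ ⟨A', B', h3, h4⟩
        refine ⟨A + A', B' + B, (h1.add A').trans (add_comm A' B ▸ h3.add B), fun b => ?_⟩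
        simp only [Pi.add_apply, Nat.cast_add, h2, h4]
        ring
      neg_mem' := by
        rintro w ⟨A, B, h1, h2⟩
        exact ⟨B, A, h1.symm, fun b => by rw [h2, Pi.neg_apply, add_neg_cancel_right]⟩ }
  have h1 : ∑ i, μ i • (fun b => (P i b : ℤ) - Q i b) ∈ D := by
    refine sum_mem fun i _ => zsmul_mem ?_ _
    obtain ⟨f, Z, h0, h1⟩ := h i
    refine ⟨P i + Z, Q i + Z, ⟨f, h0, h1⟩, fun b => ?_⟩
    simp only [Pi.add_apply, Nat.cast_add]
    ring
  obtain ⟨A, B, h2, h3⟩ := h1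
  exact ⟨A, B, h2, fun b => by simpa only [Finset.sum_apply, Pi.smul_apply, smul_eq_mul] using h3 b⟩

theorem eqv_walk {A B x z : Fin R → ℕ} (h : eqv_one F ξ A B) (hx : ∀ b, 0 < x b)
    (hz : ∀ b, 0 < z b) (e : ∀ b, A b + x b = B b + z b) (k : ℕ) : ∀ m, (∀ b, A b ≤ m + k) →
      eqv_one F ξ (fun b => (m + k) * z b) fun b => m * z b + k * x b := by
  induction k with
  | zero => exact fun m _ => by simpa using eqv_one.refl _
  | succ k ih =>
    intro m hm
    have h1 := ih (m + 1) fun b => by have := hm b; omega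
    have h2 : ∀ b, A b ≤ m * z b + z b + k * x b := fun b => by
      have := hm b
      have := hz b
      have := Nat.le_mul_of_pos_right m (hz b)
      have := Nat.le_mul_of_pos_right k (hx b)
      omega
    have h3 := h.add fun b => m * z b + z b + k * x b - A b
    have e1 : (A + fun b => m * z b + z b + k * x b - A b) = fun b => (m + 1) * z b + k * x b :=
      funext fun b => by rw [Pi.add_apply, Nat.add_sub_cancel' (h2 b), add_one_mul]
    have e2 : (B + fun b => m * z b + z b + k * x b - A b) = fun b => m * z b + (k + 1) * x b :=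
      funext fun b => by
        have := h2 b
        have := e b
        rw [Pi.add_apply, add_one_mul]
        omega
    rw [e1, e2] at h3
    rw [show m + (k + 1) = m + 1 + k by omega]
    exact h1.trans h3

theorem eqv_ev {n : ℕ} {P Q : Fin n → Fin R → ℕ} (h : ∀ i, Eqv F ξ (P i) (Q i)) (μ : Fin n → ℤ)
    {x z : Fin R → ℕ} (hx : ∀ b, 0 < x b) (hz : ∀ b, 0 < z b)
    (e : ∀ b, (z b : ℤ) = x b + ∑ i, μ i * ((P i b : ℤ) - Q i b)) :
    ∀ᶠ L : ℕ in Filter.atTop, ∃ f : K, f ≠ 0 ∧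
      (∀ y ∈ bm F ξ (fun b => L * z b), f * y ∈ bm F ξ fun b => L * x b) ∧
      finrank F (bm F ξ fun b => L * z b) = finrank F (bm F ξ fun b => L * x b) := by
  obtain ⟨A, B, h1, h2⟩ := eqv_diff h μ
  filter_upwards [Filter.eventually_ge_atTop (∑ b, A b)] with L hL
  have h3 := eqv_walk h1 hx hz (fun b => by have := h2 b; have := e b; omega) L 0 fun b => by
    rw [zero_add]
    exact (Finset.single_le_sum (fun _ _ => Nat.zero_le _) (Finset.mem_univ b)).trans hL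
  simp only [zero_add, zero_mul] at h3
  obtain ⟨f, h0, h4⟩ := h3
  refine ⟨f, h0, fun y => (h4 y).1, ?_⟩
  have h5 : (bm F ξ fun b => L * z b).map (LinearMap.mulLeft F f) = bm F ξ fun b => L * x b := by
    refine le_antisymm ?_ fun y hy => ⟨f⁻¹ * y, (h4 _).2 (by rwa [mul_inv_cancel_left₀ h0]),
      mul_inv_cancel_left₀ h0 y⟩
    rintro _ ⟨y, hy, rfl⟩
    exact (h4 y).1 hy
  rw [← h5]
  exact (Submodule.equivMapOfInjective (LinearMap.mulLeft F f) (mul_right_injective₀ h0) _).finrank_eq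

end Pool.Agent.Lib.MP_651af7_nt.Am
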