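import Pool.Agent.Lib.MP_651af7_nt.Am.Num

/-! The leading term along a ray. -/

namespace Pool.Agent.Lib.MP_651af7_nt.Am

open Finset

variable {R : ℕ} {T : Type} [Fintype T]

theorem lim_pow (E : ℝ) {k n : ℕ} (h : k ≤ n) :
    Filter.Tendsto (fun L : ℕ => ((L : ℝ) + E) ^ k / L ^ n) Filter.atTop
      (nhds (if k = n then 1 else 0)) := by
  obtain ⟨m, rfl⟩ := Nat.exists_eq_add_of_le h
  have hc : Continuous fun t : ℝ => (1 + E * t) ^ k * t ^ m := by fun_prop
  have h1 := (hc.tendsto 0).comp (tendsto_inv_atTop_nhds_zero_nat (𝕜 := ℝ))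
  have h2 : (1 + E * 0) ^ k * (0 : ℝ) ^ m = if k = k + m then 1 else 0 := by
    rcases m with _ | m <;> simp
  rw [h2] at h1
  refine h1.congr' ?_
  filter_upwards [Filter.eventually_gt_atTop 0] with L h4
  have hL : (L : ℝ) ≠ 0 := by exact_mod_cast h4.ne'
  have e : (L + E : ℝ) = L * (1 + E * (L : ℝ)⁻¹) := by field_simp
  rw [Function.comp, e, mul_pow, pow_add, mul_div_mul_left _ _ (pow_ne_zero _ hL), inv_pow,
    div_eq_mul_inv]

theorem lim_sum (E : ℝ) (k : T → ℕ) {n : ℕ} (h : ∀ τ, k τ ≤ n) [Fintype {τ // k τ = n}]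
    (w : T → ℝ) : Filter.Tendsto (fun L : ℕ => (∑ τ, ((L : ℝ) + E) ^ k τ * w τ) / L ^ n)
      Filter.atTop (nhds (∑ τ : {τ // k τ = n}, w τ)) := by
  have h1 := tendsto_finsetSum univ fun τ _ => (lim_pow E (h τ)).mul_const (w τ)
  rw [← sum_subtype (univ.filter fun τ => k τ = n) (by simp) w, sum_filter]
  simp only [ite_mul, one_mul, zero_mul] at h1
  refine h1.congr fun L => ?_
  rw [sum_div]
  exact sum_congr rfl fun τ _ => div_mul_eq_mul_div _ _ _

theorem num_lim (κ : T → Fin R → ℕ) {n₀ D : ℕ} (h0 : ∀ τ, ∑ b, κ τ b ≤ n₀)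
    [Fintype {τ // ∑ b, κ τ b = n₀}] {h : (Fin R → ℕ) → ℕ} (hh : Sw κ D h) {z : Fin R → ℕ}
    (hz : ∀ b, 0 < z b) :
    Filter.Tendsto (fun L : ℕ => (h (fun b => L * z b) : ℝ) / L ^ n₀) Filter.atTop
      (nhds (∑ τ : {τ // ∑ b, κ τ b = n₀},
        (∏ b, ((κ τ b).factorial : ℝ)⁻¹) * ∏ b, (z b : ℝ) ^ κ τ b)) := by
  have key := fun E => lim_sum E (fun τ => ∑ b, κ τ b) h0
    fun τ => (∏ b, ((κ τ b).factorial : ℝ)⁻¹) * ∏ b, (z b : ℝ) ^ κ τ b
  have hD : ∀ L, D ≤ L → ∀ b, D ≤ L * z b := fun L hL b =>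
    hL.trans (Nat.le_mul_of_pos_right _ (hz b))
  refine tendsto_of_tendsto_of_tendsto_of_le_of_le' (key (-D)) (key n₀) ?_ ?_
  · filter_upwards [Filter.eventually_ge_atTop D] with L hL
    refine div_le_div_of_nonneg_right (le_trans ?_ (Nat.cast_le.2 (hh _ (hD L hL)).1))
      (by positivity)
    rw [Nat.cast_sum]
    have h1 : (0 : ℝ) ≤ L + -D := by
      rw [← sub_eq_add_neg, sub_nonneg]
      exact_mod_cast hL
    refine sum_le_sum fun τ _ => le_trans (le_of_eq ?_) (num_low (κ τ) _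
      (fun b => (L + -D) * z b) (fun b => mul_nonneg h1 (Nat.cast_nonneg _)) fun b => ?_)
    · simp only [mul_pow, prod_mul_distrib, prod_pow_eq_pow_sum]
      exact mul_left_comm _ _ _
    · have h2 : (D : ℝ) ≤ D * z b := by exact_mod_cast Nat.le_mul_of_pos_right D (hz b)
      rw [Nat.cast_sub (hD L hL b), Nat.cast_mul]
      linarith
  · filter_upwards [Filter.eventually_ge_atTop D] with L hL
    refine div_le_div_of_nonneg_right ((Nat.cast_le.2 (hh _ (hD L hL)).2).trans ?_)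
      (by positivity)
    rw [Nat.cast_sum]
    exact sum_le_sum fun τ _ => num_up (κ τ) z (h0 τ) hz L

end Pool.Agent.Lib.MP_651af7_nt.Am
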