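import Pool.Agent.Lib.MP_651af7_nt.Am2.Opt

/-! Duality and rounding. -/

namespace Pool.Agent.Lib.MP_651af7_nt.Am2

open Finset Module

variable {R q n : ℕ} {T : Type} [Fintype T]

theorem lp (δ : Fin n → Fin R → ℝ) (y : Fin R → ℝ)
    (h : ∀ γ ∈ stdSimplex ℝ (Fin R), (∀ i, ∑ b, γ b * δ i b = 0) → 0 < ∑ b, γ b * y b) :
    ∃ μ : Fin n → ℝ, ∀ b, 0 < y b + ∑ i, μ i * δ i b := by
  by_contra! hn
  obtain ⟨f, u, h1, h2⟩ := geometric_hahn_banach_open (s := Set.univ.pi fun _ : Fin R => Set.Ioi 0)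
    (t := Set.range fun μ : Fin n → ℝ => y + ∑ i, μ i • δ i)
    (convex_pi fun _ _ => convex_Ioi (0 : ℝ)) (isOpen_set_pi Set.finite_univ fun _ _ => isOpen_Ioi)
    (by
      rintro _ ⟨μ, rfl⟩ _ ⟨ν, rfl⟩ s t - - hst
      refine ⟨s • μ + t • ν, ?_⟩
      simp only [Pi.add_apply, Pi.smul_apply, add_smul, sum_add_distrib, smul_add, smul_sum,
        smul_eq_mul, mul_smul]
      rw [add_add_add_comm, ← add_smul, hst, one_smul])
    (Set.disjoint_left.2 (by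
      rintro _ hp ⟨μ, rfl⟩
      obtain ⟨b, hb⟩ := hn μ
      exact hb.not_gt (by simpa using hp b trivial)))
  have lin : ∀ A B : ℝ, (∀ s : ℝ, 0 < s → A + s * B ≤ 0) → A ≤ 0 ∧ B ≤ 0 := fun A B hAB => by
    constructor
    · by_contra! hA
      have := hAB (A / (|B| + 1)) (by positivity)
      rw [div_mul_eq_mul_div, add_div' _ _ _ (by positivity), div_nonpos_iff] at this
      have h3 := neg_abs_le B
      rcases this with ⟨-, h4⟩ | ⟨h4, -⟩ <;> nlinarith [abs_nonneg B]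
    · by_contra! hB
      have := hAB ((|A| + 1) / B) (by positivity)
      rw [div_mul_cancel₀ _ hB.ne'] at this
      linarith [neg_abs_le A]
  have f0 : ∀ i, f (δ i) = 0 := fun i => by
    have k : ∀ s : ℝ, u ≤ f y + s * f (δ i) := fun s => by
      simpa [Pi.single_apply] using h2 _ ⟨Pi.single i s, rfl⟩
    exact le_antisymm (lin (u - f y) _ fun s _ => by linarith [k (-s)]).2
      (neg_nonpos.1 (lin (u - f y) _ fun s _ => by linarith [k s]).2)
  have f1 : ∀ b, f (Pi.single b 1) ≤ 0 := fun b => (lin (f 1 - u) _ fun s hs => by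
    have := h1 (1 + s • Pi.single b 1) fun b' _ => by
      simp only [Pi.add_apply, Pi.one_apply, Pi.smul_apply, Pi.single_apply, Set.mem_Ioi]
      split_ifs
      · simp only [smul_eq_mul, mul_one]; positivity
      · simp
    rw [map_add, map_smul, smul_eq_mul] at this
    linarith).2
  have f2 : 0 ≤ u := neg_nonpos.1 (lin (-u) (f 1) fun s hs => by
    have := h1 (s • 1) fun b' _ => by simpa using hs
    rw [map_smul, smul_eq_mul] at this
    linarith).1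
  have f3 : u ≤ f y := by simpa using h2 _ ⟨0, rfl⟩
  have fe : ∀ v : Fin R → ℝ, f v = ∑ b, v b * f (Pi.single b 1) := fun v => by
    conv_lhs => rw [pi_eq_sum_univ' v]
    simp
  obtain ⟨S, hS⟩ : ∃ S, S = ∑ b, f (Pi.single b 1) := ⟨_, rfl⟩
  have S0 : S < 0 := lt_of_le_of_ne (hS ▸ sum_nonpos fun b _ => f1 b) fun h0 => by
    have z := (sum_eq_zero_iff_of_nonpos fun b _ => f1 b).1 (hS ▸ h0)
    have := h1 1 fun b' _ => by simp
    rw [fe] at this f3
    simp only [z _ (mem_univ _), mul_zero, sum_const_zero] at this f3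
    linarith
  have e : ∀ v : Fin R → ℝ, ∑ b, f (Pi.single b 1) / S * v b = f v / S := fun v => by
    rw [fe v, sum_div]
    exact sum_congr rfl fun b _ => by ring
  have := h (fun b => f (Pi.single b 1) / S) ⟨fun b => div_nonneg_of_nonpos (f1 b) S0.le, by
    rw [← sum_div, ← hS, div_self S0.ne]⟩ fun i => by rw [e, f0, zero_div]
  rw [e] at this
  exact this.not_ge (div_nonpos_of_nonneg_of_nonpos (f2.trans f3) S0.le)

theorem int_pt {ι : Type} [Fintype ι] {U : Set (ι → ℝ)} {p : ι → ℝ} (hU : U ∈ nhds p) :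
    ∃ (s : ℝ) (v : ι → ℤ), 0 < s ∧ (fun i => s * v i) ∈ U := by
  obtain ⟨ε, h0, h⟩ := Metric.mem_nhds_iff.1 hU
  refine ⟨ε, fun i => ⌊p i / ε⌋, h0, h ((dist_pi_lt_iff h0).2 fun i => ?_)⟩
  have h1 := (le_div_iff₀ h0).1 (Int.floor_le (p i / ε))
  have h2 := (div_lt_iff₀ h0).1 (Int.lt_floor_add_one (p i / ε))
  rw [Real.dist_eq, abs_lt]
  constructor <;> linarith

theorem Dd_smul (c : T → ℝ) {κ : T → Fin R → ℕ} {n : ℕ} (hκ : ∀ τ, ∑ b, κ τ b = n) (s : ℝ)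
    (x y : Fin R → ℝ) : Dd c κ (fun b => s * x b) y = s ^ n * s⁻¹ * Dd c κ x y := by
  unfold Dd
  rw [mul_sum]
  refine sum_congr rfl fun τ _ => ?_
  have : ∑ b, κ τ b * (y b / (s * x b)) = s⁻¹ * ∑ b, κ τ b * (y b / x b) := by
    rw [mul_sum]
    exact sum_congr rfl fun b _ => by rw [mul_comm s, ← div_div, div_eq_inv_mul _ s]; ring
  simp only [mul_pow, prod_mul_distrib, prod_pow_eq_pow_sum, hκ, this]
  ring

variable [Nonempty T] {c : T → ℝ} {κ : T → Fin R → ℕ} {n₀ : ℕ}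

theorem real2 (hc : ∀ τ, 0 < c τ) (hκ : ∀ τ, ∑ b, κ τ b = n₀) {d : Fin q → Fin R → ℝ}
    (hd : ∀ j b, 0 < d j b) {ρ : Fin n → Fin q → ℝ} (hρ : LinearIndependent ℝ ρ) (h1 : n₀ ≤ n)
    (h2 : n + 2 ≤ q) : ∃ (a : Fin q → ℝ) (μ : Fin q → Fin n → ℝ), (∀ j, 0 < a j) ∧ ∀ j b,
      0 < ∑ j, a j * d j b + ∑ i, μ j i * ∑ l, ρ i l * d l b ∧
      a j * (Dd c κ (fun b => ∑ j, a j * d j b) (d j) / Hh c κ (fun b => ∑ j, a j * d j b) +
        d j b / (∑ j, a j * d j b + ∑ i, μ j i * ∑ l, ρ i l * d l b)) < 1 := by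
  have : Nonempty (Fin q) := ⟨⟨0, by omega⟩⟩
  obtain ⟨Ω, hΩ⟩ : ∃ Ω, Ω = (fun (γ : Fin R → ℝ) j => ∑ b, γ b * d j b) ''
    (stdSimplex ℝ (Fin R) ∩ ⋂ i, {γ | ∑ b, γ b * ∑ l, ρ i l * d l b = 0}) := ⟨_, rfl⟩
  have k1 : IsCompact Ω := hΩ ▸ ((isCompact_stdSimplex ℝ _).inter_right (isClosed_iInter fun i =>
    isClosed_eq (by fun_prop) continuous_const)).image (by fun_prop)
  have k2 : ∀ w ∈ Ω, ∀ j, 0 < w j := by
    rw [hΩ]
    rintro _ ⟨γ, hγ, rfl⟩ j
    exact dot_pos hγ.1.1 (by rw [hγ.1.2]; exact one_ne_zero) (hd j)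
  have k3 : n + finrank ℝ (Submodule.span ℝ Ω) ≤ q := by
    have e1 := LinearIndependent.rank_matrix (M := Matrix.of ρ) hρ
    have e2 := (Matrix.of ρ).mulVecLin.finrank_range_add_finrank_ker
    have e3 : Submodule.span ℝ Ω ≤ LinearMap.ker (Matrix.of ρ).mulVecLin := by
      rw [hΩ, Submodule.span_le]
      rintro _ ⟨γ, hγ, rfl⟩
      funext i
      refine Eq.trans ?_ (Set.mem_iInter.1 hγ.2 i)
      simp only [Matrix.mulVecLin_apply, Matrix.mulVec, dotProduct, Matrix.of_apply, mul_sum]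
      rw [sum_comm]
      exact sum_congr rfl fun _ _ => sum_congr rfl fun _ _ => by ring
    have e4 := Submodule.finrank_mono e3
    unfold Matrix.rank at e1
    simp only [Fintype.card_fin, finrank_fin_fun] at e1 e2
    omega
  obtain ⟨Ω', g1, g2, g3, g4, g5⟩ : ∃ Ω' : Set (Fin q → ℝ), Ω ⊆ Ω' ∧ IsCompact Ω' ∧ Ω'.Nonempty ∧
      (∀ w ∈ Ω', ∀ j, 0 < w j) ∧ n₀ + finrank ℝ (Submodule.span ℝ Ω') ≤ q := by
    rcases Ω.eq_empty_or_nonempty with h | h
    · refine ⟨{1}, by simp [h], isCompact_singleton, Set.singleton_nonempty _, by simp, ?_⟩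
      rw [finrank_span_singleton one_ne_zero]
      omega
    · exact ⟨Ω, le_rfl, k1, h, k2, by omega⟩
  obtain ⟨a, ha, h⟩ := opt hc hκ hd g2 g3 g4 g5 (by omega)
  have dp : ∀ w : Fin q → ℝ, (∀ j, 0 < w j) → 0 < ∑ j, a j * w j := fun w hw =>
    sum_pos (fun j _ => mul_pos (ha j) (hw j)) univ_nonempty
  obtain ⟨E, hE⟩ : ∃ E : Fin q → ℝ, ∀ j, Dd c κ (fun b => ∑ j, a j * d j b) (d j) /
    Hh c κ (fun b => ∑ j, a j * d j b) = E j := ⟨_, fun _ => rfl⟩
  simp only [hE] at h ⊢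
  have t1 : ∀ j, ∀ u v : ℝ, 0 < v → (a j * (E j + u / v) < 1 ↔ u < ((a j)⁻¹ - E j) * v) :=
    fun j u v hv => by
    rw [← div_lt_iff₀ hv, lt_sub_iff_add_lt', ← lt_div_iff₀' (ha j), one_div]
  have t2 : ∀ j, 0 < (a j)⁻¹ - E j := fun j => by
    obtain ⟨w, hw⟩ := g3
    exact (mul_pos_iff_of_pos_right (dp w (g4 w hw))).1
      ((g4 w hw j).trans ((t1 j _ _ (dp w (g4 w hw))).1 (h j w hw)))
  choose μ hμ using fun j => lp (fun i b => ∑ l, ρ i l * d l b)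
    (fun b => ((a j)⁻¹ - E j) * ∑ j, a j * d j b - d j b) fun γ γ1 γ2 => by
    have hw : (fun j => ∑ b, γ b * d j b) ∈ Ω := hΩ ▸ ⟨γ, ⟨γ1, Set.mem_iInter.2 γ2⟩, rfl⟩
    have := (t1 j _ _ (dp _ (k2 _ hw))).1 (h j _ (g1 hw))
    refine (sub_pos.2 this).trans_eq ?_
    simp only [mul_sub, sum_sub_distrib, mul_sum]
    rw [sum_comm]
    exact congrArg (· - _) (sum_congr rfl fun _ _ => sum_congr rfl fun _ _ => by ring)
  refine ⟨a, fun j i => ((a j)⁻¹ - E j)⁻¹ * μ j i, ha, fun j b => ?_⟩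
  have t3 : d j b < ((a j)⁻¹ - E j) * (∑ j, a j * d j b +
      ∑ i, ((a j)⁻¹ - E j)⁻¹ * μ j i * ∑ l, ρ i l * d l b) := by
    simp only [mul_assoc, ← mul_sum]
    rw [mul_add, mul_inv_cancel_left₀ (t2 j).ne']
    linarith [hμ j b]
  have t4 := (mul_pos_iff_of_pos_left (t2 j)).1 ((hd j b).trans t3)
  rw [hE]
  exact ⟨t4, (t1 j _ _ t4).2 t3⟩

theorem int2 (hc : ∀ τ, 0 < c τ) (hκ : ∀ τ, ∑ b, κ τ b = n₀) {d : Fin q → Fin R → ℕ}
    (hd : ∀ j b, 0 < d j b) {ρ : Fin n → Fin q → ℤ}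
    (hρ : LinearIndependent ℝ fun i j => (ρ i j : ℝ)) (h1 : n₀ ≤ n) (h2 : n + 2 ≤ q) :
    ∃ (a : Fin q → ℕ) (x : Fin R → ℕ) (z : Fin q → Fin R → ℕ) (μ : Fin q → Fin n → ℤ),
      (∀ j, 0 < a j) ∧ (∀ b, x b = ∑ j, a j * d j b) ∧ (∀ j b, 0 < z j b) ∧
      (∀ j b, (z j b : ℤ) = x b + ∑ i, μ j i * ∑ l, ρ i l * d l b) ∧ ∀ j b,
        a j * (Dd c κ (fun b => x b) (fun b => d j b) / Hh c κ (fun b => x b) +
          (d j b : ℝ) / z j b) < 1 := by
  have : Nonempty (Fin q) := ⟨⟨0, by omega⟩⟩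
  have hd' : ∀ j b, (0 : ℝ) < d j b := fun j b => by exact_mod_cast hd j b
  obtain ⟨a, μ, ha, h⟩ := real2 hc hκ hd' hρ h1 h2
  have x0 : ∀ b, 0 < ∑ j, a j * d j b := fun b =>
    sum_pos (fun j _ => mul_pos (ha j) (hd' j b)) univ_nonempty
  obtain ⟨s, v, s0, v1, v2⟩ := int_pt (p := Sum.elim a fun t : Fin q × Fin n => μ t.1 t.2)
    (U := {p | (∀ j, 0 < p (.inl j)) ∧ ∀ j b,
      0 < ∑ j, p (.inl j) * d j b + ∑ i, p (.inr (j, i)) * ∑ l, ρ i l * (d l b : ℝ) ∧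
      p (.inl j) * (Dd c κ (fun b => ∑ j, p (.inl j) * d j b) (fun b => d j b) /
        Hh c κ (fun b => ∑ j, p (.inl j) * d j b) + d j b / (∑ j, p (.inl j) * d j b +
          ∑ i, p (.inr (j, i)) * ∑ l, ρ i l * (d l b : ℝ))) < 1}) (by
    refine (Filter.eventually_all.2 fun j => ?_).and (Filter.eventually_all.2 fun j =>
      Filter.eventually_all.2 fun b => Filter.Eventually.and ?_ ?_)
    · exact ContinuousAt.eventually_lt continuousAt_const (continuousAt_apply _ _) (ha j)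
    · exact ContinuousAt.eventually_lt continuousAt_const (Continuous.continuousAt (by fun_prop))
        (h j b).1
    · refine ContinuousAt.eventually_lt ((continuousAt_apply _ _).mul (ContinuousAt.add
        (ContinuousAt.div ?_ ((Hh_cont c κ).comp (by fun_prop)).continuousAt (Hh_pos hc κ x0).ne')
        (continuousAt_const.div (Continuous.continuousAt (by fun_prop)) (h j b).1.ne'))) continuousAt_const (h j b).2
      unfold Dd
      exact tendsto_finsetSum _ fun τ _ => (Continuous.continuousAt (by fun_prop)).mul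
        (tendsto_finsetSum _ fun b _ => continuousAt_const.mul
          (continuousAt_const.div (Continuous.continuousAt (by fun_prop)) (x0 b).ne')))
  simp only [mul_assoc, ← mul_sum, ← mul_add, mul_pos_iff_of_pos_left s0, Hh_smul c hκ,
    Dd_smul c hκ] at v1 v2
  have w1 : ∀ j, 0 < v (.inl j) := fun j => by exact_mod_cast v1 j
  have w2 : ∀ j b, 0 < ∑ j, v (.inl j) * d j b + ∑ i, v (.inr (j, i)) * ∑ l, ρ i l * d l b :=
    fun j b => by exact_mod_cast (v2 j b).1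
  have e1 : ∀ j, ((v (.inl j)).toNat : ℤ) = v (.inl j) := fun j => Int.toNat_of_nonneg (w1 j).le
  have e2 : ∀ j, ((v (.inl j)).toNat : ℝ) = v (.inl j) := fun j => by exact_mod_cast e1 j
  have e3 := fun j b => Int.toNat_of_nonneg (w2 j b).le
  refine ⟨fun j => (v (.inl j)).toNat, _, fun j b => (∑ j, v (.inl j) * d j b +
    ∑ i, v (.inr (j, i)) * ∑ l, ρ i l * d l b).toNat, fun j i => v (.inr (j, i)),
    fun j => Int.lt_toNat.2 (w1 j), fun _ => rfl, fun j b => Int.lt_toNat.2 (w2 j b),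
    fun j b => by rw [e3]; push_cast; simp only [e1], fun j b => ?_⟩
  have e4 := congrArg (Int.cast : ℤ → ℝ) (e3 j b)
  rw [Int.cast_natCast] at e4
  rw [e4]
  push_cast
  simp only [e2]
  refine lt_of_eq_of_lt ?_ (v2 j b).2
  rw [mul_div_mul_left _ _ (pow_pos s0 _).ne', mul_comm s (_ + _), ← div_div]
  field_simp

end Pool.Agent.Lib.MP_651af7_nt.Am2
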