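import Pool.Agent.Lib.MP_651af7_nt.Am2.Eqv

/-! Numerically equivalent multidegrees. -/

namespace Pool.Agent.Lib.MP_651af7_nt.Am

open Module

variable {F K : Type} [Field F] [Field K] [Algebra F K] {R N : ℕ} {ξ : Fin R × Fin N → K}

theorem Inc.refl (A : Fin R → ℕ) : Inc F ξ A A :=
  ⟨1, one_ne_zero, fun z hz => by rwa [one_mul]⟩

theorem Inc.trans {A B C : Fin R → ℕ} (h : Inc F ξ A B) (h' : Inc F ξ B C) : Inc F ξ A C := by
  obtain ⟨f, h0, h⟩ := h
  obtain ⟨g, h1, h'⟩ := h'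
  exact ⟨g * f, mul_ne_zero h1 h0, fun z hz => by rw [mul_assoc]; exact h' _ (h z hz)⟩

theorem Inc.add {A B : Fin R → ℕ} (h : Inc F ξ A B) (W : Fin R → ℕ) :
    Inc F ξ (A + W) (B + W) := by
  obtain ⟨f, h0, h⟩ := h
  exact ⟨f, h0, eqv_shift h W⟩

theorem Inc.of_le (ξ1 : ∀ b, ∃ a, ξ (b, a) ≠ 0) {A B : Fin R → ℕ} (h : ∀ b, A b ≤ B b) :
    Inc F ξ A B := by
  choose ε hε using ξ1
  obtain ⟨μ, hμ⟩ := nev_one (ξ := ξ) ε fun b => B b - A b
  refine ⟨mn ξ μ, hμ ▸ Finset.prod_ne_zero_iff.2 fun b _ => pow_ne_zero _ (hε b), fun z hz => ?_⟩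
  have := nev_mul (nev_mn (F := F) μ) hz
  rwa [show (fun b => B b - A b + A b) = B from funext fun b => Nat.sub_add_cancel (h b)] at this

theorem bm_fin (Y : Fin R → ℕ) : FiniteDimensional F (bm F ξ Y) := by
  refine FiniteDimensional.span_of_finite F ((Set.finite_range (mn (Y := Y) ξ)).subset ?_)
  rintro _ ⟨μ, h, rfl⟩
  exact ⟨fun b => ⟨fun a => μ (b, a), Finset.mem_piAntidiag.2 ⟨h b, fun _ _ => Finset.mem_univ _⟩⟩,
    rfl⟩

theorem inc_le {A B : Fin R → ℕ} (h : Inc F ξ A B) :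
    finrank F (bm F ξ A) ≤ finrank F (bm F ξ B) := by
  obtain ⟨f, h0, h⟩ := h
  have := bm_fin (F := F) (ξ := ξ) B
  rw [(Submodule.equivMapOfInjective (LinearMap.mulLeft F f) (mul_right_injective₀ h0)
    _).finrank_eq]
  refine Submodule.finrank_mono ?_
  rintro _ ⟨y, hy, rfl⟩
  exact h y hy

theorem Neq.add {A B A' B' : Fin R → ℕ} (h : Neq F ξ A B) (h' : Neq F ξ A' B') :
    Neq F ξ (A + A') (B + B') := by
  have key : ∀ {A B A' B' Z Z' : Fin R → ℕ}, Inc F ξ A (B + Z) → Inc F ξ A' (B' + Z') →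
      Inc F ξ (A + A') (B + B' + (Z + Z')) := fun {A B A' B' Z Z'} h h' => by
    have := h'.add (B + Z)
    rw [add_comm A', show B' + Z' + (B + Z) = B + B' + (Z + Z') by ring] at this
    exact (h.add A').trans this
  obtain ⟨Z, h⟩ := h
  obtain ⟨Z', h'⟩ := h'
  refine ⟨Z + Z', fun m => ?_⟩
  rw [smul_add, smul_add]
  exact ⟨key (h m).1 (h' m).1, key (h m).2 (h' m).2⟩

theorem neq_diff {n : ℕ} {P Q : Fin n → Fin R → ℕ} (h : ∀ i, Neq F ξ (P i) (Q i)) (μ : Fin n → ℤ) :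
    ∃ A B, Neq F ξ A B ∧ ∀ b, (A b : ℤ) = B b + ∑ i, μ i * ((P i b : ℤ) - Q i b) := by
  let D : AddSubgroup (Fin R → ℤ) :=
    { carrier := {w | ∃ A B, Neq F ξ A B ∧ ∀ b, (A b : ℤ) = B b + w b}
      zero_mem' := ⟨0, 0, ⟨0, fun m => by simpa using Inc.refl _⟩, fun b => by simp⟩
      add_mem' := by
        rintro w w' ⟨A, B, h1, h2⟩ ⟨A', B', h3, h4⟩
        refine ⟨A + A', B + B', h1.add h3, fun b => ?_⟩
        simp only [Pi.add_apply, Nat.cast_add, h2, h4]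
        ring
      neg_mem' := by
        rintro w ⟨A, B, ⟨Z, h1⟩, h2⟩
        exact ⟨B, A, ⟨Z, fun m => (h1 m).symm⟩, fun b => by
          rw [h2, Pi.neg_apply, add_neg_cancel_right]⟩ }
  have h1 : ∑ i, μ i • (fun b => (P i b : ℤ) - Q i b) ∈ D :=
    sum_mem fun i _ => zsmul_mem (show _ ∈ D from ⟨P i, Q i, h i, fun b => by ring⟩) _
  obtain ⟨A, B, h2, h3⟩ := h1
  exact ⟨A, B, h2, fun b => by simpa only [Finset.sum_apply, Pi.smul_apply, smul_eq_mul] using h3 b⟩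

theorem neq_walk {A B Z x z : Fin R → ℕ} {L : ℕ} (h : Inc F ξ (L • A) (L • B + Z))
    (hx : ∀ b, 0 < x b) (hz : ∀ b, 0 < z b) (e : ∀ b, A b + x b = B b + z b) (k : ℕ) :
    ∀ m, (∀ b, A b ≤ m + k) → Inc F ξ (fun b => L * ((m + k) * z b))
      fun b => L * (m * z b + k * x b) + k * Z b := by
  induction k with
  | zero => exact fun m _ => by simpa using Inc.refl _
  | succ k ih =>
    intro m hm
    have h1 := ih (m + 1) fun b => by have := hm b; omega
    have h2 : ∀ b, ∃ w, m * z b + z b + k * x b = A b + w := fun b => Nat.exists_eq_add_of_le (by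
      have := hm b
      have := hz b
      have := Nat.le_mul_of_pos_right m (hz b)
      have := Nat.le_mul_of_pos_right k (hx b)
      omega)
    choose w hw using h2
    have h3 := h.add fun b => L * w b + k * Z b
    have e1 : (L • A + fun b => L * w b + k * Z b) =
        fun b => L * ((m + 1) * z b + k * x b) + k * Z b := funext fun b => by
      rw [Pi.add_apply, Pi.smul_apply, smul_eq_mul, add_one_mul, hw]
      ring
    have e2 : (L • B + Z + fun b => L * w b + k * Z b) =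
        fun b => L * (m * z b + (k + 1) * x b) + (k + 1) * Z b := funext fun b => by
      have k1 : m * z b + (k + 1) * x b = B b + w b := by
        have := hw b
        have := e b
        rw [add_one_mul]
        omega
      rw [Pi.add_apply, Pi.add_apply, Pi.smul_apply, smul_eq_mul, k1]
      ring
    rw [e1, e2] at h3
    rw [show m + (k + 1) = m + 1 + k by omega]
    exact h1.trans h3

theorem neq_one (ξ1 : ∀ b, ∃ a, ξ (b, a) ≠ 0) {A B Z x z : Fin R → ℕ}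
    (h : ∀ L : ℕ, Inc F ξ (L • A) (L • B + Z)) (hx : ∀ b, 0 < x b) (hz : ∀ b, 0 < z b)
    (e : ∀ b, A b + x b = B b + z b) : ∀ᶠ c : ℕ in Filter.atTop, ∀ L : ℕ,
      Inc F ξ (fun b => L * z b) fun b => (L + c) * x b := by
  obtain ⟨k, k0, hk⟩ : ∃ k, 0 < k ∧ ∀ b, A b ≤ 0 + k := ⟨∑ b, A b + 1, by omega, fun b => by
    have := Finset.single_le_sum (f := A) (fun _ _ => Nat.zero_le _) (Finset.mem_univ b)
    omega⟩
  filter_upwards [Filter.eventually_ge_atTop (∑ b, (k * Z b + k * z b))] with c hc L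
  have h1 := (neq_walk (h (L / k)) hx hz e k 0 hk).add fun b => L % k * z b
  have h2 := Nat.div_add_mod' L k
  have e1 : ((fun b => L / k * ((0 + k) * z b)) + fun b => L % k * z b) = fun b => L * z b :=
    funext fun b => by rw [Pi.add_apply, zero_add, ← mul_assoc, ← add_mul, h2]
  rw [e1] at h1
  refine h1.trans (Inc.of_le ξ1 fun b => ?_)
  have k1 := Finset.single_le_sum (f := fun b => k * Z b + k * z b) (fun _ _ => Nat.zero_le _)
    (Finset.mem_univ b)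
  have k2 := Nat.mul_le_mul_right (z b) (Nat.mod_lt L k0).le
  have k3 := Nat.mul_le_mul_right (x b) (Nat.div_mul_le_self L k)
  have k4 := Nat.le_mul_of_pos_right c (hx b)
  rw [Pi.add_apply, zero_mul, zero_add, ← mul_assoc, add_mul]
  omega

theorem neq_ev (ξ1 : ∀ b, ∃ a, ξ (b, a) ≠ 0) {n : ℕ} {P Q : Fin n → Fin R → ℕ}
    (h : ∀ i, Neq F ξ (P i) (Q i)) (μ : Fin n → ℤ) {x z : Fin R → ℕ} (hx : ∀ b, 0 < x b)
    (hz : ∀ b, 0 < z b) (e : ∀ b, (z b : ℤ) = x b + ∑ i, μ i * ((P i b : ℤ) - Q i b)) :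
    ∀ᶠ c : ℕ in Filter.atTop, ∀ L : ℕ, Inc F ξ (fun b => L * z b) (fun b => (L + c) * x b) ∧
      Inc F ξ (fun b => L * x b) fun b => (L + c) * z b := by
  obtain ⟨A, B, ⟨Z, h1⟩, h2⟩ := neq_diff h μ
  have e1 : ∀ b, A b + x b = B b + z b := fun b => by have := h2 b; have := e b; omega
  filter_upwards [neq_one ξ1 (fun L => (h1 L).1) hx hz e1,
    neq_one ξ1 (fun L => (h1 L).2) hz hx fun b => (e1 b).symm] with c k1 k2 L
  exact ⟨k1 L, k2 L⟩

theorem neq_of_eqv (ξ1 : ∀ b, ∃ a, ξ (b, a) ≠ 0) {Y Y' : Fin R → ℕ} (h : Eqv F ξ Y Y') :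
    Neq F ξ Y Y' := by
  have key : ∀ {Y Y' Z : Fin R → ℕ}, Inc F ξ (Y + Z) (Y' + Z) → ∀ m : ℕ,
      Inc F ξ (m • Y + Z) (m • Y' + Z) := fun {Y Y' Z} h m => by
    induction m with
    | zero => simpa using Inc.refl _
    | succ m ih =>
      have h1 := h.add (m • Y)
      have h2 := ih.add Y'
      rw [show Y + Z + m • Y = (m + 1) • Y + Z by rw [succ_nsmul]; ring,
        show Y' + Z + m • Y = m • Y + Z + Y' by ring] at h1
      rw [show m • Y' + Z + Y' = (m + 1) • Y' + Z by rw [succ_nsmul]; ring] at h2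
      exact h1.trans h2
  obtain ⟨f, Z, h0, h⟩ := h
  refine ⟨Z, fun m => ⟨(Inc.of_le ξ1 fun b => Nat.le_add_right _ _).trans
    (key ⟨f, h0, fun z => (h z).1⟩ m), (Inc.of_le ξ1 fun b => Nat.le_add_right _ _).trans
    (key ⟨f⁻¹, inv_ne_zero h0, fun z hz => (h _).2 (by rwa [mul_inv_cancel_left₀ h0])⟩ m)⟩⟩

end Pool.Agent.Lib.MP_651af7_nt.Am
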