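import Pool.Agent.Lib.MP_651af7_nt.Am.Nev
import Pool.Agent.Lib.MP_651af7_nt.Am4.GpB

/-! The filtration of Ru and Vojta, moved along a linear equivalence for each divisor. -/

namespace Pool.Agent.Lib.MP_651af7_nt.Am

open Module Fc

variable {F K : Type} [Field F] [Field K] [Algebra F K] {R N q : ℕ} {ξ : Fin R × Fin N → K}

theorem nev2_disc {Γ Q : Type} [LinearOrderedCommGroupWithZero Γ] [Fintype Q] (t : Q → Γ)
    (ht : ∀ j, t j ≤ 1) (h0 : ∀ j, t j ≠ 0) (a : Q → ℕ) (N : ℕ) :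
    ∃ (B : ℕ) (w : Q → ℕ) (ρ : Γ), B ≠ 0 ∧ ρ ≤ 1 ∧ ρ ≠ 0 ∧ (∀ j, t j ^ B ≤ ρ ^ w j) ∧
      ρ ^ ((N + 1) * ∑ j, w j * a j) ≤ (∏ j, t j ^ (N * a j)) ^ B := by
  obtain ⟨B, w, ρ, b1, b2, b3, b4⟩ := disc t ht a N
  rcases eq_or_ne ρ 0 with rfl | h
  · have hw : ∀ j, w j = 0 := fun j => by_contra fun e =>
      pow_ne_zero B (h0 j) (le_zero_iff.1 ((b3 j).trans_eq (zero_pow e)))
    exact ⟨B, w, 1, b1, le_rfl, one_ne_zero, by simpa [hw] using b3, by simpa [hw] using b4⟩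
  · exact ⟨B, w, ρ, b1, b2, h, b3, b4⟩

theorem nev2 (ξ1 : ∀ b, ∃ a, ξ (b, a) ≠ 0) {u : Fin q → K} {d : Fin q → Fin R → ℕ}
    (hu : ∀ j, u j ∈ bm F ξ (d j)) (hu0 : ∀ j, u j ≠ 0) (hP : Gen F ξ u d) {Y : Fin R → ℕ}
    {a M : Fin q → ℕ} {p : ℕ} {f : Fin q → K} {Z : Fin q → Fin R → ℕ} (f0 : ∀ j, f j ≠ 0)
    (hf : ∀ j, ∀ z ∈ bm F ξ (Z j), f j * z ∈ bm F ξ Y) (hle : ∀ j b, d j b ≤ Y b)
    (hM : ∀ j b, M j * d j b ≤ Z j b) (hc : ∀ j, a j * finrank F (bm F ξ Y) ≤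
      p * ∑ m ∈ Finset.range (M j), finrank F (bm F ξ fun b => Z j b - (m + 1) * d j b)) (L : ℕ) :
    NevB F (mn (Y := Y) ξ) (fun j => pw ξ (u j) fun b => Y b - d j b) (fun _ => 1)
      (fun j => L * a j) ((L + 1) * p) := by
  classical
  obtain ⟨r, α, a1, a2, a3⟩ := mon_basis (F := F) (f := mn (Y := Y) ξ) 1
  obtain ⟨T, hT⟩ : ∃ T : Fin r → K, ∀ m, ∏ i, mn (Y := Y) ξ i ^ α m i = T m := ⟨_, fun _ => rfl⟩
  have hr0 : finrank F (mon F (mn (Y := Y) ξ) 1) = r := by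
    rw [← a3, finrank_span_eq_card a2, Fintype.card_fin]
  have h1 : ∃ i, mn (Y := Y) ξ i ≠ 0 := by
    choose ε hε using ξ1
    obtain ⟨μ, hμ⟩ := nev_one (ξ := ξ) ε Y
    exact ⟨μ, hμ ▸ Finset.prod_ne_zero_iff.2 fun b _ => pow_ne_zero _ (hε b)⟩
  refine ⟨1, r, α, one_pos, hr0 ▸ mon_pos h1 1, a1, a2, fun O e c o1 o2 o3 => ?_⟩
  rw [nev_mon] at a3 hr0
  simp only [hT] at a2 a3 ⊢
  have h2 : ∀ b, ∃ i, ξ (b, i) ≠ 0 ∧ ∀ i', ξ (b, i') / ξ (b, i) ∈ O := fun b => by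
    obtain ⟨i0, h0⟩ := ξ1 b
    obtain ⟨i, -, hi⟩ := Finset.exists_max_image Finset.univ (fun i => O.valuation (ξ (b, i)))
      ⟨i0, Finset.mem_univ _⟩
    have h3 : 0 < O.valuation (ξ (b, i)) :=
      (zero_lt_iff.2 ((map_ne_zero _).2 h0)).trans_le (hi i0 (Finset.mem_univ _))
    refine ⟨i, (map_ne_zero _).1 h3.ne', fun i' => ?_⟩
    rw [← O.valuation_le_one_iff, map_div₀, div_le_one₀ h3]
    exact hi i' (Finset.mem_univ _)
  choose ε e1 e2 using h2
  obtain ⟨P, hP'⟩ : ∃ P : (Fin R → ℕ) → K, ∀ A, ∏ b, ξ (b, ε b) ^ A b = P A := ⟨_, fun _ => rfl⟩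
  have p0 : ∀ A, P A ≠ 0 := fun A =>
    hP' A ▸ Finset.prod_ne_zero_iff.2 fun b _ => pow_ne_zero _ (e1 b)
  have p1 : ∀ (Y A : Fin R → ℕ) (m : ℕ), (∀ b, m * A b ≤ Y b) →
      P Y = P A ^ m * P fun b => Y b - m * A b := fun Y A m h => by
    rw [← hP', ← hP', ← hP', ← Finset.prod_pow, ← Finset.prod_mul_distrib]
    refine Finset.prod_congr rfl fun b _ => ?_
    rw [← pow_mul, ← pow_add, mul_comm (A b), Nat.add_sub_cancel' (h b)]
  have p2 : ∀ {A : Fin R → ℕ} {z : K}, z ∈ bm F ξ A → z / P A ∈ chart F ξ ε := fun h =>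
    hP' _ ▸ nev_div h ε
  have p3 : ∀ j, f j * P (Z j) ∈ bm F ξ Y := fun j => by
    obtain ⟨μ, hμ⟩ := nev_one (ξ := ξ) ε (Z j)
    exact hf j _ (hP' _ ▸ hμ ▸ nev_mn μ)
  let Λ := Fintype.linearCombination F T
  have l1 : LinearMap.range Λ = bm F ξ Y := by
    rw [← a3, Fintype.range_linearCombination]
  let ψ : (Fin r → F) →ₗ[F] chart F ξ ε :=
    ((LinearMap.mulRight F (P Y)⁻¹).comp Λ).codRestrict (chart F ξ ε).toSubmodule fun x =>
      by simpa [div_eq_mul_inv] using p2 (l1 ▸ LinearMap.mem_range_self Λ x)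
  have l2 : ∀ x, (ψ x : K) = Λ x / P Y := fun x => (div_eq_mul_inv _ _).symm
  let φ : Fin q → chart F ξ ε := fun j => ⟨_, p2 (hu j)⟩
  have l3 : ∀ j, (φ j : K) = u j / P (d j) := fun j => rfl
  have hO : ∀ z : chart F ξ ε, O.valuation z ≤ 1 := fun z => by
    refine (O.valuation_le_one_iff _).2 (Algebra.adjoin_induction ?_ o1
      (fun _ _ _ _ => add_mem) (fun _ _ _ _ => mul_mem) z.2)
    rintro _ ⟨s, rfl⟩
    exact e2 s.1 s.2
  have hm : ∀ j m, m < M j → ∀ b, (m + 1) * d j b ≤ Z j b := fun j m h b =>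
    (Nat.mul_le_mul_right _ h).trans (hM j b)
  let V : Fin q → ℕ → Submodule F K := fun j m =>
    (bm F ξ fun b => Z j b - (m + 1) * d j b).map (LinearMap.mulLeft F (f j * u j ^ (m + 1)))
  have g7 : ∀ j, O.valuation (φ j) ≠ 0 := fun j =>
    (map_ne_zero _).2 (div_ne_zero (hu0 j) (p0 _))
  obtain ⟨B, w, ρ, b1, b2, b0, b3, b4⟩ :=
    nev2_disc (fun j => O.valuation (φ j)) (fun j => hO _) g7 a L
  have : Algebra.FiniteType F (chart F ξ ε) := (Subalgebra.fg_iff_finiteType _).1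
    (Subalgebra.fg_def.2 ⟨_, Set.finite_range _, rfl⟩)
  obtain ⟨G, n, g1, g2, g3⟩ := cI_basis (hP ε e1 φ fun j => by rw [hP']) ψ
    (fun j m => if m < M j then (V j m).comap Λ else ⊥) (fun j m x hx => by
      split_ifs at hx with h
      · obtain ⟨y, k1, k2⟩ := Submodule.mem_map.1 (Submodule.mem_comap.1 hx)
        refine Ideal.mem_span_singleton.2 ⟨⟨_, mul_mem (p2 k1) (p2 (p3 j))⟩,
          Subtype.ext ((l2 x).trans ?_)⟩
        rw [← k2, LinearMap.mulLeft_apply, MulMemClass.coe_mul, SubmonoidClass.coe_pow, l3, div_pow]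
        change _ = _ * (y / _ * (f j * P (Z j) / P Y))
        rw [← mul_assoc, div_mul_div_comm, ← p1 _ _ _ (hm j m h), div_mul_div_comm,
          mul_comm (f j) (P _), ← mul_assoc, mul_comm _ (P (Z j)), mul_assoc (P _),
          mul_div_mul_left _ _ (p0 _), mul_assoc (f j), mul_comm (f j)]
      · rw [(Submodule.mem_bot _).1 hx, map_zero]
        exact zero_mem _) (∑ j, M j) w
  have g4 : ∀ l, O.valuation (ψ (G l)) ^ B ≤ ρ ^ n l := fun l => by
    obtain ⟨π, rfl⟩ := O.valuation_surjective ρ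
    have k : ∀ (z : K) (m : ℕ), z ^ B / π ^ m ∈ O ↔ O.valuation z ^ B ≤ O.valuation π ^ m :=
      fun z m => by
        rw [← O.valuation_le_one_iff, map_div₀, map_pow, map_pow,
          div_le_one₀ (pow_pos (zero_lt_iff.2 b0) _)]
    exact (k _ _).1 (cI_val (chart F ξ ε).val.toRingHom O
      (fun z => (O.valuation_le_one_iff _).1 (hO z)) ((map_ne_zero _).1 b0)
      ((O.valuation_le_one_iff _).1 b2) b1 (fun i _ => (k _ _).2 (b3 i)) (g2 l))
  have g5 : (∑ j, w j * a j) * r ≤ (∑ l, n l) * p := by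
    refine le_trans ?_ (Nat.mul_le_mul_right p g3)
    rw [Finset.sum_mul, Finset.sum_mul]
    refine Finset.sum_le_sum fun j _ => ?_
    rw [mul_assoc, mul_assoc, mul_comm _ p]
    refine Nat.mul_le_mul_left _ ((hr0 ▸ hc j).trans (Nat.mul_le_mul_left _ ?_))
    refine le_trans (Finset.sum_le_sum fun m h => ?_) (Finset.sum_le_sum_of_subset
      (Finset.range_mono (Finset.single_le_sum (fun _ _ => Nat.zero_le _) (Finset.mem_univ j))))
    have h' := Finset.mem_range.1 h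
    have k : V j m ≤ LinearMap.range Λ := by
      rintro _ ⟨y, k1, rfl⟩
      have k2 := nev_mul (nev_pow (hu j) (m + 1)) k1
      simp only [Nat.add_sub_cancel' (hm j m h' _)] at k2
      rw [l1, LinearMap.mulLeft_apply, mul_assoc]
      exact hf j _ k2
    rw [if_pos h', (Submodule.equivMapOfInjective (LinearMap.mulLeft F (f j * u j ^ (m + 1)))
      (mul_right_injective₀ (mul_ne_zero (f0 j) (pow_ne_zero _ (hu0 j)))) _).finrank_eq]
    change finrank F (V j m) ≤ _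
    conv_lhs => rw [← Submodule.map_comap_eq_self k]
    exact Submodule.finrank_map_le _ _
  have g6 : O.valuation (∏ l, (ψ (G l) : K)) ^ ((L + 1) * p) ≤
      (∏ j, O.valuation (φ j) ^ (L * a j)) ^ r := by
    refine (pow_le_pow_iff_left₀ zero_le zero_le b1).1 ?_
    rw [← pow_mul, mul_comm _ B, pow_mul, ← pow_mul _ r, mul_comm _ B, pow_mul _ B r]
    refine le_trans ?_ (pow_le_pow_left' b4 _)
    rw [map_prod, ← Finset.prod_pow]
    refine (pow_le_pow_left' (Finset.prod_le_prod' fun l _ => g4 l) _).trans ?_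
    rw [Finset.prod_pow_eq_pow_sum, ← pow_mul, ← pow_mul]
    refine pow_le_pow_right_of_le_one' b2 ?_
    rw [mul_assoc, mul_left_comm (∑ i, n i)]
    exact Nat.mul_le_mul_left _ g5
  refine ⟨G, g1, (O.valuation_le_one_iff _).1 ?_⟩
  have g8 : O.valuation (mn ξ e) = O.valuation (P Y) := by
    obtain ⟨μ, hμ⟩ := nev_one (ξ := ξ) ε Y
    refine nev_val O o2.1 (p0 _) ((O.valuation_le_one_iff _).1 (hO ⟨_, p2 (nev_mn e)⟩)) ?_
    rw [← hP', ← hμ]
    exact o2.2 μ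
  have g9 : ∀ j, O.valuation (pw ξ (u j) (fun b => Y b - d j b) (c j)) =
      O.valuation (u j * P fun b => Y b - d j b) := fun j => by
    refine nev_val O (o3 j).1 (mul_ne_zero (hu0 j) (p0 _)) ?_ ?_
    · rw [pw, mul_div_mul_left _ _ (hu0 j), ← hP', ← Finset.prod_div_distrib]
      exact prod_mem fun b _ => div_pow (ξ _) (ξ (b, ε b)) _ ▸ pow_mem (e2 b _) _
    · have k := (o3 j).2 (finFunctionFinEquiv ε)
      have k1 : pw ξ (u j) (fun b => Y b - d j b) (finFunctionFinEquiv ε) =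
          u j * P fun b => Y b - d j b := by rw [pw, Equiv.symm_apply_apply, hP']
      exact k1 ▸ k
  have g10 : ∀ j, O.valuation (P Y) / O.valuation (u j * P fun b => Y b - d j b) =
      (O.valuation (φ j : K))⁻¹ := fun j => by
    have k := p1 Y (d j) 1 fun b => by rw [one_mul]; exact hle j b
    simp only [pow_one, one_mul] at k
    rw [← map_div₀, ← map_inv₀, l3, inv_div, k, mul_div_mul_right _ _ (p0 _)]
  simp only [pow_one, mul_one, map_mul (O.valuation) (_ ^ _), map_pow, map_prod, map_div₀, g8, g9,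
    g10, inv_pow, Finset.prod_inv_distrib]
  rw [mul_inv_le_iff₀ (zero_lt_iff.2 (Finset.prod_ne_zero_iff.2 fun j _ => pow_ne_zero _ (g7 j))),
    one_mul]
  rw [← Finset.prod_pow, map_prod] at g6
  simpa only [← pow_mul, l2, Λ, Fintype.linearCombination_apply, map_div₀] using g6

end Pool.Agent.Lib.MP_651af7_nt.Am
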