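import Pool.Agent.Lib.MP_651af7_nt.Am.Num

/-! The count for one divisor. -/

namespace Pool.Agent.Lib.MP_651af7_nt.Am

open Finset

variable {R : ℕ} {T : Type} [Fintype T]

theorem num_one (κ : T → Fin R → ℕ) {n n₀ D : ℕ} (hκ : ∀ τ, ∑ b, κ τ b ≤ n)
    (h0 : ∀ τ, ∑ b, κ τ b ≤ n₀) [Fintype {τ // ∑ b, κ τ b = n₀}] [Nonempty {τ // ∑ b, κ τ b = n₀}]
    {h : (Fin R → ℕ) → ℕ} (hh : Sw κ D h) (hR : 0 < R) {d z : Fin R → ℕ} (hd : ∀ b, 0 < d b)
    (hz : ∀ b, d b ≤ z b) {a : ℕ} (s : ℕ) (o : ∀ b₀, (a : ℝ) * ∑ τ : {τ // ∑ b, κ τ b = n₀},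
      (∏ b, ((κ τ b).factorial : ℝ)⁻¹) * (∏ b, (z b : ℝ) ^ κ τ b) *
        ((d b₀ : ℝ) / z b₀ + ∑ b, κ τ b * ((d b : ℝ) / z b)) <
      ∑ τ : {τ // ∑ b, κ τ b = n₀}, (∏ b, ((κ τ b).factorial : ℝ)⁻¹) * ∏ b, (z b : ℝ) ^ κ τ b) :
    ∀ᶠ L : ℕ in Filter.atTop, ∃ M : ℕ, (∀ b, M * d b ≤ (L + (D + 1)) * z b) ∧
      (L + (D + 1 + s)) * a * (L + 1) * h (fun b => (L + (D + 1 + s)) * z b) ≤
        L * ∑ m ∈ range M, h fun b => (L + (D + 1)) * z b - (m + 1) * d b := by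
  classical
  let T₀ := {τ // ∑ b, κ τ b = n₀}
  let c : T → ℝ := fun τ => ∏ b, ((κ τ b).factorial : ℝ)⁻¹
  have hc : ∀ τ, 0 < c τ := fun τ => prod_pos fun b _ => by positivity
  have x0 : ∀ b, 0 < z b := fun b => (hd b).trans_le (hz b)
  have x1 : ∀ b, (0 : ℝ) < z b := fun b => by exact_mod_cast x0 b
  have : Nonempty (Fin R) := ⟨⟨0, hR⟩⟩
  obtain ⟨b₀, -, hb⟩ := exists_max_image univ (fun b => (d b : ℝ) / z b) univ_nonempty
  let w : T → ℝ := fun τ => c τ * ∏ b, (z b : ℝ) ^ κ τ b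
  have hw : ∀ τ, 0 < w τ := fun τ => mul_pos (hc τ) (prod_pos fun b _ => pow_pos (x1 b) _)
  let A : T → ℝ := fun τ => (d b₀ : ℝ) / z b₀ + ∑ b, κ τ b * ((d b : ℝ) / z b)
  have hA : ∀ τ, 0 < A τ := fun τ => add_pos_of_pos_of_nonneg
    (div_pos (by exact_mod_cast hd _) (x1 _)) (sum_nonneg fun b _ => by positivity)
  have hH : 0 < ∑ τ : T₀, w τ := sum_pos (fun τ _ => hw τ) univ_nonempty
  filter_upwards [num_ev (D + 1 + s + n) (∑ τ, w τ) n₀ hH (o b₀), Filter.eventually_gt_atTop 0]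
    with L l1 l2
  have l0 : (1 : ℝ) ≤ L := by exact_mod_cast l2
  have hM : ∀ b, L * z b₀ / d b₀ * d b ≤ L * z b := fun b => by
    have k1 := (div_le_div_iff₀ (x1 b) (x1 b₀)).1 (hb b (mem_univ _))
    have k2 : d b * z b₀ ≤ d b₀ * z b := by exact_mod_cast k1
    have k3 := Nat.div_mul_le_self (L * z b₀) (d b₀)
    refine Nat.le_of_mul_le_mul_right ?_ (x0 b₀)
    calc _ = L * z b₀ / d b₀ * (d b * z b₀) := by ring
      _ ≤ L * z b₀ / d b₀ * (d b₀ * z b) := Nat.mul_le_mul_left _ k2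
      _ = L * z b₀ / d b₀ * d b₀ * z b := by ring
      _ ≤ L * z b₀ * z b := Nat.mul_le_mul_right _ k3
      _ = _ := by ring
  have hD : ∀ b, D ≤ D * z b := fun b => Nat.le_mul_of_pos_right _ (x0 b)
  have hY : ∀ b, (L + (D + 1)) * z b = L * z b + D * z b + z b := fun b => by ring
  refine ⟨L * z b₀ / d b₀, fun b => by have := hM b; rw [hY]; omega, ?_⟩
  have z1 : (1 : ℝ) ≤ L + (D + 1 + s + n) := by
    linarith [show (0 : ℝ) ≤ D + 1 + s + n by positivity]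
  have u1 : (L + (D + 1 + s + n) : ℝ) * h (fun b => (L + (D + 1 + s)) * z b) ≤
      (L + (D + 1 + s + n)) ^ n₀ * ((L + (D + 1 + s + n)) * ∑ τ : T₀, w τ + ∑ τ, w τ) := by
    have k1 : (h (fun b => (L + (D + 1 + s)) * z b) : ℝ) ≤ _ :=
      Nat.cast_le.2 (hh _ fun b => (hD b).trans (Nat.mul_le_mul_right _ (by omega))).2
    rw [← sum_subtype (univ.filter fun τ => ∑ b, κ τ b = n₀) (by simp) w, sum_filter, mul_sum,
      ← sum_add_distrib, mul_sum]
    refine (mul_le_mul_of_nonneg_left k1 (by positivity)).trans ?_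
    rw [Nat.cast_sum, mul_sum]
    refine sum_le_sum fun τ _ => (mul_le_mul_of_nonneg_left
      (num_up (κ τ) z (hκ τ) x0 (L + (D + 1 + s))) (by positivity)).trans ?_
    have k2 := hw τ
    rw [show ((L + (D + 1 + s) : ℕ) + n : ℝ) = L + (D + 1 + s + n) by push_cast; ring]
    change _ * (_ * w τ) ≤ _
    generalize (L + (D + 1 + s + n) : ℝ) = Z at *
    split_ifs with e
    · rw [e, mul_left_comm]
      exact mul_le_mul_of_nonneg_left (le_add_of_nonneg_right k2.le) (by positivity)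
    · rw [mul_zero, zero_add, ← mul_assoc, ← pow_succ']
      exact mul_le_mul_of_nonneg_right
        (pow_le_pow_right₀ z1 (by have := h0 τ; omega)) k2.le
  have u2 : (L : ℝ) ^ n₀ * (L - 1) * ∑ τ : T₀, w τ ^ 2 / (w τ * A τ) ≤
      ∑ m ∈ range (L * z b₀ / d b₀),
        (h fun b => (L + (D + 1)) * z b - (m + 1) * d b : ℝ) := by
    have k1 : ∀ m ∈ range (L * z b₀ / d b₀),
        ∑ τ : T₀, c τ * ∏ b, ((L : ℝ) * z b - m * d b) ^ κ τ b ≤
        (h fun b => (L + (D + 1)) * z b - (m + 1) * d b : ℝ) := fun m hm => by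
      have k2 : ∀ b, m * d b ≤ L * z b := fun b =>
        (Nat.mul_le_mul_right _ (mem_range.1 hm).le).trans (hM b)
      have k3 : ∀ b, L * z b - m * d b + D ≤ (L + (D + 1)) * z b - (m + 1) * d b := fun b => by
        have := hD b
        have := hz b
        have := k2 b
        rw [hY, add_mul m, one_mul]
        omega
      refine le_trans ?_ (Nat.cast_le.2 (hh _ fun b => by have := k3 b; omega).1)
      rw [Nat.cast_sum, ← sum_subtype (univ.filter fun τ => ∑ b, κ τ b = n₀) (by simp)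
        fun τ => c τ * ∏ b, ((L : ℝ) * z b - m * d b) ^ κ τ b]
      refine le_trans (sum_le_sum fun τ _ => num_low (κ τ) _ _ (fun b => ?_) fun b => ?_)
        (sum_le_sum_of_subset_of_nonneg (filter_subset _ _) fun _ _ _ => Nat.cast_nonneg _)
      · exact sub_nonneg.2 (by exact_mod_cast k2 b)
      · rw [← Nat.cast_mul, ← Nat.cast_mul, ← Nat.cast_sub (k2 b)]
        exact Nat.cast_le.2 (Nat.le_sub_of_add_le (k3 b))
    refine le_trans ?_ (sum_le_sum k1)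
    rw [sum_comm, mul_sum]
    refine sum_le_sum fun τ _ => ?_
    have k4 := num_tel (κ τ) z d hd hz b₀ (fun b => hb b (mem_univ _)) l2
    rw [τ.2] at k4
    rw [← mul_sum, sq, mul_div_mul_left _ _ (hw τ).ne', ← mul_div_assoc, div_le_iff₀ (hA τ),
      mul_assoc (c τ), mul_comm _ (A τ)]
    exact (le_of_eq (mul_left_comm _ _ _)).trans (mul_le_mul_of_nonneg_left k4 (hc τ).le)
  have u3 := sq_sum_div_le_sum_sq_div univ (fun τ : T₀ => w τ) (g := fun τ => w τ * A τ)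
    fun τ _ => mul_pos (hw τ) (hA τ)
  have hS : 0 < ∑ τ : T₀, w τ * A τ := sum_pos (fun τ _ => mul_pos (hw τ) (hA τ)) univ_nonempty
  have u4 := (mul_le_mul_of_nonneg_left u3 (mul_nonneg (pow_nonneg (Nat.cast_nonneg L) n₀)
    (sub_nonneg.2 l0))).trans u2
  rw [← mul_div_assoc, div_le_iff₀ hS] at u4
  have u5 : (a * ∑ τ : T₀, w τ * A τ) * (L + 1) * _ ≤ _ := l1
  have u6 : ((L + (D + 1 + s) : ℕ) : ℝ) * h (fun b => (L + (D + 1 + s)) * z b) ≤ _ :=
    le_trans (mul_le_mul_of_nonneg_right (by push_cast; linarith [n.cast_nonneg (α := ℝ)])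
      (Nat.cast_nonneg _)) u1
  have u7 := ((mul_le_mul_of_nonneg_left u6 (by positivity)).trans u5).trans
    (mul_le_mul_of_nonneg_left u4 (Nat.cast_nonneg L))
  rw [← Nat.cast_le (α := ℝ)]
  refine le_of_mul_le_mul_right ?_ hS
  push_cast at u7 ⊢
  linarith

end Pool.Agent.Lib.MP_651af7_nt.Am
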