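import Pool.Agent.Lib.MP_651af7_nt.Am2.Lp
import Pool.Agent.Lib.MP_651af7_nt.Am2.One
import Pool.Agent.Lib.MP_651af7_nt.Am2.Lim

/-! The choice of the multidegrees. -/

namespace Pool.Agent.Lib.MP_651af7_nt.Am2

open Finset Am

variable {R q : ℕ} {T : Type} [Fintype T]

theorem Dd_eq (c : T → ℝ) (κ : T → Fin R → ℕ) {x z : Fin R → ℝ} (hx : ∀ b, 0 < x b)
    (hz : ∀ b, 0 < z b) (y : Fin R → ℝ)
    (h : ∀ t : ℕ, Hh c κ (fun b => x b + t * y b) = Hh c κ fun b => z b + t * y b) :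
    Dd c κ x y = Dd c κ z y := by
  have e : ∀ (v : Fin R → ℝ) (s : ℝ), Hh c κ (fun b => v b + s * y b) = Polynomial.eval s
      (∑ τ, Polynomial.C (c τ) * ∏ b, (Polynomial.C (v b) + Polynomial.X * Polynomial.C (y b)) ^
        κ τ b) := fun v s => by
    simp [Hh, Polynomial.eval_finsetSum, Polynomial.eval_prod, mul_comm s]
  have g := Polynomial.eq_of_infinite_eval_eq _ _ (Set.infinite_of_injective_forall_mem
    (Nat.cast_injective (R := ℝ)) fun t => ((e x t).symm.trans (h t)).trans (e z t))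
  refine (Hh_deriv c κ hx y).unique ?_
  simp only [e, g]
  simpa only [e] using Hh_deriv c κ hz y

theorem num_le (κ : T → Fin R → ℕ) {n₀ D : ℕ} (h0 : ∀ τ, ∑ b, κ τ b ≤ n₀)
    [Fintype {τ // ∑ b, κ τ b = n₀}] {h : (Fin R → ℕ) → ℕ} (hh : Sw κ D h) {x z : Fin R → ℕ}
    (hx : ∀ b, 0 < x b) (hz : ∀ b, 0 < z b) {s : ℕ}
    (H : ∀ L : ℕ, h (fun b => L * z b) ≤ h fun b => (L + s) * x b) :
    ∑ τ : {τ // ∑ b, κ τ b = n₀}, (∏ b, ((κ τ b).factorial : ℝ)⁻¹) * ∏ b, (z b : ℝ) ^ κ τ b ≤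
      ∑ τ : {τ // ∑ b, κ τ b = n₀}, (∏ b, ((κ τ b).factorial : ℝ)⁻¹) * ∏ b, (x b : ℝ) ^ κ τ b := by
  have k1 := ((num_lim κ h0 hh hx).comp (Filter.tendsto_add_atTop_nat s)).mul
    (lim_pow s (le_refl n₀))
  rw [if_pos rfl, mul_one] at k1
  refine le_of_tendsto_of_tendsto (num_lim κ h0 hh hz) k1 ?_
  filter_upwards [Filter.eventually_gt_atTop 0] with L hL
  have k2 : ((L : ℝ) + s) ^ n₀ ≠ 0 := by positivity
  rw [Function.comp, Nat.cast_add, div_mul_div_cancel₀ k2]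
  exact div_le_div_of_nonneg_right (Nat.cast_le.2 (H L)) (by positivity)

theorem num2 [Nonempty T] (κ : T → Fin R → ℕ) {n D : ℕ} (hκ : ∀ τ, ∑ b, κ τ b ≤ n)
    {h : (Fin R → ℕ) → ℕ} (hh : Sw κ D h) {d : Fin q → Fin R → ℕ} (hd : ∀ j b, 0 < d j b)
    (hR : 0 < R) {ρ : Fin n → Fin q → ℤ} (hρ : LinearIndependent ℝ fun i j => (ρ i j : ℝ))
    (h2 : n + 2 ≤ q) (E : (Fin R → ℕ) → (Fin R → ℕ) → Prop)
    (hF : ∀ A B, E A B → h A ≤ h B)
    (hE : ∀ (μ : Fin n → ℤ) (x z : Fin R → ℕ), (∀ b, 0 < x b) → (∀ b, 0 < z b) →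
      (∀ b, (z b : ℤ) = x b + ∑ i, μ i * ∑ l, ρ i l * d l b) → ∀ᶠ s : ℕ in Filter.atTop, ∀ L : ℕ,
        E (fun b => L * z b) (fun b => (L + s) * x b) ∧
          E (fun b => L * x b) fun b => (L + s) * z b) :
    ∃ (Y : Fin R → ℕ) (Z : Fin q → Fin R → ℕ) (a M : Fin q → ℕ) (p : ℕ), 0 < p ∧ (∀ j, 0 < a j) ∧
      (∀ j b, d j b ≤ Y b) ∧ (∀ b, ∑ j, a j * d j b = (p + 1) * Y b) ∧ (∀ j, E (Z j) Y) ∧
      (∀ j b, M j * d j b ≤ Z j b) ∧
      ∀ j, a j * h Y ≤ p * ∑ m ∈ range (M j), h fun b => Z j b - (m + 1) * d j b := by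
  classical
  obtain ⟨τ₀, -, h0⟩ := exists_max_image univ (fun τ => ∑ b, κ τ b) univ_nonempty
  obtain ⟨n₀, hn⟩ : ∃ n₀, ∑ b, κ τ₀ b = n₀ := ⟨_, rfl⟩
  have n0 := hκ τ₀
  simp only [hn, mem_univ, true_imp_iff] at h0 n0
  let T₀ := {τ // ∑ b, κ τ b = n₀}
  have : Nonempty T₀ := ⟨⟨τ₀, hn⟩⟩
  let c : T₀ → ℝ := fun τ => ∏ b, ((κ τ b).factorial : ℝ)⁻¹
  have hc : ∀ τ, 0 < c τ := fun τ => prod_pos fun b _ => by positivity
  obtain ⟨a, x, z, μ, o1, o2, o3, o4, o5⟩ :=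
    int2 (κ := fun τ : T₀ => κ τ) hc (fun τ => τ.2) hd hρ n0 h2
  have hx : ∀ j b, d j b ≤ x b := fun j b => by
    rw [o2]
    exact (Nat.le_mul_of_pos_left _ (o1 j)).trans
      (single_le_sum (f := fun j => a j * d j b) (fun _ _ => Nat.zero_le _) (mem_univ j))
  have x0 : ∀ b, 0 < x b := fun b => (hd ⟨0, by omega⟩ b).trans_le (hx _ b)
  have x1 : ∀ b, (0 : ℝ) < x b := fun b => by exact_mod_cast x0 b
  have z1 : ∀ j b, (0 : ℝ) < z j b := fun j b => by exact_mod_cast o3 j b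
  have i1 : ∀ j (t : ℕ), Hh c (fun τ : T₀ => κ τ) (fun b => x b + t * d j b) =
      Hh c (fun τ : T₀ => κ τ) fun b => z j b + t * d j b := fun j t => by
    have k1 : ∀ b, 0 < x b + t * d j b := fun b => Nat.add_pos_left (x0 b) _
    have k2 : ∀ b, 0 < z j b + t * d j b := fun b => Nat.add_pos_left (o3 j b) _
    obtain ⟨s, hs⟩ := (hE (μ j) _ _ k1 k2 fun b => by push_cast; rw [o4]; ring).exists
    have := le_antisymm (num_le κ h0 hh k2 k1 fun L => hF _ _ (hs L).2)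
      (num_le κ h0 hh k1 k2 fun L => hF _ _ (hs L).1)
    simp only [Nat.cast_add, Nat.cast_mul] at this
    exact this
  have i2 := fun j => Dd_eq c _ x1 (z1 j) _ (i1 j)
  have i3 : ∀ j, Hh c (fun τ : T₀ => κ τ) (fun b => x b) =
      Hh c (fun τ : T₀ => κ τ) fun b => z j b := fun j => by simpa using i1 j 0
  have i4 : ∀ j b, (a j : ℝ) * (Dd c (fun τ : T₀ => κ τ) (fun b => z j b) (fun b => d j b) /
      Hh c (fun τ : T₀ => κ τ) (fun b => z j b) + (d j b : ℝ) / z j b) < 1 := fun j b => by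
    rw [← i2, ← i3]
    exact o5 j b
  have hz : ∀ j b, d j b ≤ z j b := fun j b => by
    have k1 : 0 ≤ Dd c (fun τ : T₀ => κ τ) (fun b => z j b) (fun b => d j b) /
        Hh c (fun τ : T₀ => κ τ) (fun b => z j b) := div_nonneg (sum_nonneg fun τ _ => by
      have := hc τ
      positivity) (Hh_pos hc _ (z1 j)).le
    have k2 : (1 : ℝ) ≤ a j := by exact_mod_cast o1 j
    have k3 : (0 : ℝ) ≤ (d j b : ℝ) / z j b := by positivity
    have k4 : (d j b : ℝ) / z j b ≤ 1 := by nlinarith [i4 j b]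
    exact_mod_cast (div_le_one (z1 j b)).1 k4
  obtain ⟨s, l2⟩ := (Filter.eventually_all.2 fun j =>
    hE (μ j) x (z j) x0 (o3 j) (o4 j)).exists
  obtain ⟨L, l1, l3⟩ := ((Filter.eventually_all.2 fun j =>
    num_one κ hκ h0 hh hR (hd j) (hz j) (a := a j) (s + s) fun b => by
      have k1 := mul_lt_mul_of_pos_right (i4 j b) (Hh_pos hc (fun τ : T₀ => κ τ) (z1 j))
      rw [one_mul, mul_assoc, add_mul, div_mul_cancel₀ _ (Hh_pos hc _ (z1 j)).ne'] at k1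
      refine lt_of_eq_of_lt (congrArg _ ?_) k1
      simp only [Dd, Hh, mul_sum _ _ ((d j b : ℝ) / z j b), ← sum_add_distrib]
      exact sum_congr rfl fun τ _ => by ring).and (Filter.eventually_gt_atTop 0)).exists
  choose M m1 m2 using l1
  refine ⟨fun b => (L + (D + 1) + s) * x b, fun j b => (L + (D + 1)) * z j b,
    fun j => (L + (D + 1) + s) * a j * (L + 1), M, L, l3, fun j => by have := o1 j; positivity,
    fun j b => (hx j b).trans (Nat.le_mul_of_pos_left _ (by omega)), fun b => ?_,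
    fun j => (l2 j _).1, m1, fun j => le_trans (Nat.mul_le_mul (Nat.mul_le_mul_right _
      (Nat.mul_le_mul_right _ (by omega))) ?_) (m2 j)⟩
  · simp only [o2, mul_sum]
    exact sum_congr rfl fun j _ => by ring
  · rw [show L + (D + 1 + (s + s)) = L + (D + 1) + s + s by omega]
    exact hF _ _ (l2 j _).2

end Pool.Agent.Lib.MP_651af7_nt.Am2
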