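import Pool.Agent.Lib.MP_651af7_nt.Am.Core
import Pool.Agent.Lib.MP_651af7_nt.Am.Std
import Pool.Agent.Lib.MP_651af7_nt.Am2.Num2
import Pool.Agent.Lib.MP_651af7_nt.Am2.Neq
import Pool.Agent.Lib.MP_651af7_nt.Am2.Nev2

/-! Integral points on the complement of ample divisors with many units. -/

namespace Pool.Agent.Lib.MP_651af7_nt.Am

open Height MvPolynomial NumberField IntermediateField Ds

theorem main2 (k : Type) [Field k] [NumberField k] (g R N q n : ℕ)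
    (J : Ideal (MvPolynomial (Fin g) k)) (hJ : ∀ P ∈ J, ∀ d, homogeneousComponent d P ∈ J)
    (hA : Abelian (J.map (MvPolynomial.map (algebraMap k (AlgebraicClosure k)))))
    (K : Type) [Field K] [Algebra k K] (y : Fin g → K) (ξ : Fin R × Fin N → K)
    (hy : ∀ (P : MvPolynomial (Fin g) k) (d : ℕ), P.IsHomogeneous d → (aeval y P = 0 ↔ P ∈ J))
    (y1 : ∃ i, y i = 1) (hR : 0 < R) (ξ1 : ∀ b, ∃ a, ξ (b, a) ≠ 0) (F : IntermediateField k K)
    (hF : F = adjoin k (Set.range y)) (hK : adjoin F (Set.range ξ) = ⊤)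
    (hc : ∀ z : K, IsAlgebraic F z → z ∈ F) (hn : Algebra.trdeg F K = n)
    (U : Fin q → MvPolynomial (Fin g ⊕ Fin R × Fin N) k)
    (hU : ∀ j, aeval (Sum.elim y ξ) (U j) ≠ 0) (e : Fin q → ℕ) (d : Fin q → Fin R → ℕ)
    (he : ∀ j, 0 < e j) (hd : ∀ j b, 0 < d j b)
    (hh : ∀ j, aeval (Sum.elim y ξ) (U j) ∈ bm F ξ (d j))
    (hP : Gen F ξ (fun j => aeval (Sum.elim y ξ) (U j)) d)
    (ρ : Fin n → Fin q → ℤ) (hρ : LinearIndependent ℝ fun i j => (ρ i j : ℝ))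
    (h1 : ∀ i, Neq F ξ (fun b => ∑ j, (ρ i j).toNat * d j b) fun b => ∑ j, (-ρ i j).toNat * d j b)
    (h2 : n + 2 ≤ q) :
    ∃ (Θ : MvPolynomial (Fin g ⊕ Fin R × Fin N) k) (c : Fin q → ℕ),
      aeval (Sum.elim y ξ) Θ ≠ 0 ∧ ∀ S : Finset (FinitePlace k), ∃ C : ℝ,
        ∀ (x : Fin g → k) (t : Fin R × Fin N → k),
        (∀ P, aeval (Sum.elim y ξ) P = 0 → eval (Sum.elim x t) P = 0) →
        eval (Sum.elim x t) Θ ≠ 0 → (∀ j, eval (Sum.elim x t) (U j) ≠ 0) ∧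
        (∀ b, (fun a => t (b, a)) ≠ 0) ∧
        logHeight x + ∑ b, logHeight (fun a => t (b, a)) ≤
          ∑ j, c j * ∑ᶠ v ∈ (S : Set (FinitePlace k))ᶜ, Real.log ((⨆ i, v (x i)) ^ e j *
            (∏ b, (⨆ a, v (t (b, a))) ^ d j b) / v (eval (Sum.elim x t) (U j))) + C := by
  obtain ⟨T, _, _, κ, D0, hκ, hS⟩ := hilb ξ1 hn
  obtain ⟨Y, Z, a, M, p, g1, g2, g3, g4, g5, g6, g7⟩ := Am2.num2 κ hκ hS hd hR hρ h2
    (Inc F ξ) (fun _ _ => inc_le) fun μ x z hx hz hμ => neq_ev ξ1 h1 μ hx hz fun b => by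
      rw [hμ]
      refine congrArg _ (Finset.sum_congr rfl fun i _ => congrArg _ ?_)
      push_cast
      rw [← Finset.sum_sub_distrib]
      exact Finset.sum_congr rfl fun j _ => by rw [← sub_mul, Int.toNat_sub_toNat_neg]
  choose f f0 f1 using g5
  exact main_core k g R N q J hJ hA K y ξ hy y1 ξ1 F hF hK hc U hU e d he (by omega) Y a p g1 g2
    (fun b => (hd ⟨0, by omega⟩ b).trans_le (g3 _ b)) g3 g4
    (nev2 ξ1 hh hU hP f0 f1 g3 g6 g7)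

end Pool.Agent.Lib.MP_651af7_nt.Am
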