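import Mathlib

/-! The choice of the weights against a compact set of positive functionals. -/

namespace Pool.Agent.Lib.MP_651af7_nt.Am2

open Finset Module

variable {R q : ℕ} {T : Type} [Fintype T]

/-- The volume polynomial. -/
noncomputable def Hh (c : T → ℝ) (κ : T → Fin R → ℕ) (x : Fin R → ℝ) : ℝ :=
  ∑ τ, c τ * ∏ b, x b ^ κ τ b

/-- The derivative of the volume polynomial in the direction `y`. -/
noncomputable def Dd (c : T → ℝ) (κ : T → Fin R → ℕ) (x y : Fin R → ℝ) : ℝ :=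
  ∑ τ, c τ * (∏ b, x b ^ κ τ b) * ∑ b, κ τ b * (y b / x b)

theorem Hh_pos [Nonempty T] {c : T → ℝ} (hc : ∀ τ, 0 < c τ) (κ : T → Fin R → ℕ) {x : Fin R → ℝ}
    (hx : ∀ b, 0 < x b) : 0 < Hh c κ x :=
  sum_pos (fun τ _ => mul_pos (hc τ) (prod_pos fun b _ => pow_pos (hx b) _)) univ_nonempty

theorem Hh_smul (c : T → ℝ) {κ : T → Fin R → ℕ} {n : ℕ} (hκ : ∀ τ, ∑ b, κ τ b = n) (s : ℝ)
    (x : Fin R → ℝ) : Hh c κ (fun b => s * x b) = s ^ n * Hh c κ x := by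
  unfold Hh
  rw [mul_sum]
  refine sum_congr rfl fun τ _ => ?_
  simp only [mul_pow, prod_mul_distrib, prod_pow_eq_pow_sum, hκ]
  ring

theorem Hh_cont (c : T → ℝ) (κ : T → Fin R → ℕ) : Continuous (Hh c κ) := by
  unfold Hh
  fun_prop

theorem Hh_deriv (c : T → ℝ) (κ : T → Fin R → ℕ) {x : Fin R → ℝ} (hx : ∀ b, 0 < x b)
    (y : Fin R → ℝ) : HasDerivAt (fun s : ℝ => Hh c κ fun b => x b + s * y b) (Dd c κ x y) 0 := by
  unfold Hh Dd
  refine HasDerivAt.fun_sum fun τ _ => ?_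
  rw [mul_assoc]
  refine HasDerivAt.const_mul _ ?_
  have h : ∀ b ∈ (univ : Finset (Fin R)), HasDerivAt (fun s : ℝ => (x b + s * y b) ^ κ τ b)
      (x b ^ κ τ b * (κ τ b * (y b / x b))) 0 := fun b _ => by
    have h1 := (((hasDerivAt_id (0 : ℝ)).mul_const (y b)).const_add (x b)).fun_pow (κ τ b)
    refine h1.congr_deriv ?_
    have := (hx b).ne'
    rcases Nat.eq_zero_or_pos (κ τ b) with h | h
    · simp [h]
    · obtain ⟨m, hm⟩ : ∃ m, κ τ b = m + 1 := ⟨_, (Nat.succ_pred_eq_of_pos h).symm⟩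
      simp only [hm, id, zero_mul, add_zero, Nat.add_sub_cancel, one_mul, pow_succ]
      field_simp
  refine (HasDerivAt.fun_finsetProd h).congr_deriv ?_
  rw [mul_sum]
  refine sum_congr rfl fun b _ => ?_
  simp only [zero_mul, add_zero, smul_eq_mul]
  rw [← mul_assoc, prod_erase_mul _ _ (mem_univ b)]

section
variable [Nonempty T] {c : T → ℝ} {κ : T → Fin R → ℕ} {n r : ℕ} {d : Fin q → Fin R → ℝ}

/-- The function that is maximised. -/
noncomputable def Ph (c : T → ℝ) (κ : T → Fin R → ℕ) (n : ℕ) (d : Fin q → Fin R → ℝ)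
    (Δ : (Fin r → Fin q → ℝ) → ℝ) (a : Fin q → ℝ) (ω : Fin r → Fin q → ℝ) : ℝ :=
  |Δ ω| ^ q * (∏ j, a j) ^ (n + r) /
    (Hh c κ (fun b => ∑ j, a j * d j b) * ∏ l, ∑ j, a j * ω l j) ^ q

omit [Nonempty T] in
theorem Ph_smul (hκ : ∀ τ, ∑ b, κ τ b = n) (Δ : (Fin r → Fin q → ℝ) → ℝ) {s : ℝ} (hs : s ≠ 0)
    (a : Fin q → ℝ) (ω : Fin r → Fin q → ℝ) :
    Ph c κ n d Δ (fun j => s * a j) ω = Ph c κ n d Δ a ω := by
  unfold Ph
  simp only [mul_assoc, ← mul_sum]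
  rw [Hh_smul c hκ, prod_mul_distrib, prod_mul_distrib]
  simp only [prod_const, card_univ, Fintype.card_fin]
  rw [show (s ^ n * Hh c κ (fun b => ∑ j, a j * d j b) * (s ^ r * ∏ l, ∑ j, a j * ω l j)) ^ q =
    (Hh c κ (fun b => ∑ j, a j * d j b) * ∏ l, ∑ j, a j * ω l j) ^ q * (s ^ q) ^ (n + r) by ring,
    mul_pow (s ^ q), ← mul_assoc, mul_right_comm, mul_div_mul_right _ _ (by positivity)]

theorem dot_pos {a w : Fin q → ℝ} (ha : ∀ j, 0 ≤ a j) (h1 : ∑ j, a j ≠ 0) (hw : ∀ j, 0 < w j) :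
    0 < ∑ j, a j * w j := by
  obtain ⟨j, -, hj⟩ := exists_ne_zero_of_sum_ne_zero h1
  exact sum_pos' (fun i _ => mul_nonneg (ha i) (hw i).le)
    ⟨j, mem_univ _, mul_pos ((ha j).lt_of_ne' hj) (hw j)⟩

theorem Ph_max (hc : ∀ τ, 0 < c τ) (hκ : ∀ τ, ∑ b, κ τ b = n) (hd : ∀ j b, 0 < d j b)
    (hq : 0 < q) (hr : 0 < r) {Ω : Set (Fin q → ℝ)} (hΩ : IsCompact Ω)
    (hp : ∀ w ∈ Ω, ∀ j, 0 < w j) {Δ : (Fin r → Fin q → ℝ) → ℝ} (hΔ : Continuous Δ)
    {f : Fin r → Fin q → ℝ} (hf : ∀ l, f l ∈ Ω) (h0 : Δ f ≠ 0) :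
    ∃ a ω, (∀ j, 0 < a j) ∧ (∀ l, ω l ∈ Ω) ∧ Δ ω ≠ 0 ∧ ∀ a' ω', (∀ j, 0 < a' j) →
      (∀ l, ω' l ∈ Ω) → Ph c κ n d Δ a' ω' ≤ Ph c κ n d Δ a ω := by
  have : Nonempty (Fin q) := ⟨⟨0, hq⟩⟩
  have hK : IsCompact (stdSimplex ℝ (Fin q) ×ˢ Set.univ.pi fun _ : Fin r => Ω) :=
    (isCompact_stdSimplex ℝ _).prod (isCompact_univ_pi fun _ => hΩ)
  have den : ∀ (a : Fin q → ℝ) (ω : Fin r → Fin q → ℝ), (∀ j, 0 ≤ a j) → ∑ j, a j ≠ 0 →
      (∀ l, ω l ∈ Ω) →
      0 < (Hh c κ (fun b => ∑ j, a j * d j b) * ∏ l, ∑ j, a j * ω l j) ^ q := fun a ω h1 h2 h3 =>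
    pow_pos (mul_pos (Hh_pos hc κ fun b => dot_pos h1 h2 fun j => hd j b)
      (prod_pos fun l _ => dot_pos h1 h2 (hp _ (h3 l)))) _
  have nm : ∀ a : Fin q → ℝ, (∀ j, 0 < a j) →
      (fun j => (∑ i, a i)⁻¹ * a j) ∈ stdSimplex ℝ (Fin q) ∧ (∑ i, a i)⁻¹ ≠ 0 := fun a ha => by
    have : 0 < ∑ i, a i := sum_pos (fun i _ => ha i) univ_nonempty
    exact ⟨⟨fun j => (mul_pos (inv_pos.2 this) (ha j)).le, by
      rw [← mul_sum, inv_mul_cancel₀ this.ne']⟩, inv_ne_zero this.ne'⟩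
  obtain ⟨⟨a, ω⟩, ⟨h1, h2⟩, hm⟩ := hK.exists_isMaxOn (f := fun p => Ph c κ n d Δ p.1 p.2)
    ⟨(_, f), (nm (fun _ => 1) fun _ => one_pos).1, fun l _ => hf l⟩ (by
      unfold Ph
      have := Hh_cont c κ
      refine ContinuousOn.div (by fun_prop) (by fun_prop) fun p hp' => ?_
      exact (den _ _ hp'.1.1 (by rw [hp'.1.2]; exact one_ne_zero) fun l => hp'.2 l trivial).ne')
  have hM : ∀ a' ω', (∀ j, 0 < a' j) → (∀ l, ω' l ∈ Ω) →
      Ph c κ n d Δ a' ω' ≤ Ph c κ n d Δ a ω := fun a' ω' g1 g2 => by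
    rw [← Ph_smul hκ Δ (nm a' g1).2 a']
    exact hm (a := (_, ω')) ⟨(nm a' g1).1, fun l _ => g2 l⟩
  have hpos : 0 < Ph c κ n d Δ a ω := by
    refine lt_of_lt_of_le ?_ (hM (fun _ => 1) f (fun _ => one_pos) hf)
    refine div_pos (mul_pos (pow_pos (abs_pos.2 h0) _) (by simp)) (den _ _ (fun _ => zero_le_one)
      (by simp [hq.ne']) hf)
  refine ⟨a, ω, fun j => (h1.1 j).lt_of_ne' fun h => hpos.ne' ?_, fun l => h2 l trivial,
    fun h => hpos.ne' ?_, hM⟩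
  · unfold Ph
    rw [prod_eq_zero (mem_univ j) h, zero_pow (by omega), mul_zero, zero_div]
  · unfold Ph
    rw [h, abs_zero, zero_pow hq.ne', zero_mul, zero_div]

theorem Ph_log (hc : ∀ τ, 0 < c τ) (hd : ∀ j b, 0 < d j b) (hq : 0 < q)
    {Δ : (Fin r → Fin q → ℝ) → ℝ} {ω : Fin r → Fin q → ℝ} (hω : ∀ l j, 0 < ω l j) (h0 : Δ ω ≠ 0)
    {a : Fin q → ℝ} (ha : ∀ j, 0 < a j) : 0 < Ph c κ n d Δ a ω ∧
      Real.log (Ph c κ n d Δ a ω) = q * Real.log |Δ ω| + (n + r) * ∑ j, Real.log (a j) -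
        q * (Real.log (Hh c κ fun b => ∑ j, a j * d j b) + ∑ l, Real.log (∑ j, a j * ω l j)) := by
  have : Nonempty (Fin q) := ⟨⟨0, hq⟩⟩
  have h1 : ∀ w : Fin q → ℝ, (∀ j, 0 < w j) → 0 < ∑ j, a j * w j := fun w hw =>
    sum_pos (fun j _ => mul_pos (ha j) (hw j)) univ_nonempty
  have h2 := Hh_pos hc κ fun b => h1 _ fun j => hd j b
  have h3 : 0 < ∏ l, ∑ j, a j * ω l j := prod_pos fun l _ => h1 _ (hω l)
  have h4 : 0 < ∏ j, a j := prod_pos fun j _ => ha j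
  have h5 := abs_pos.2 h0
  unfold Ph
  refine ⟨by positivity, ?_⟩
  rw [Real.log_div (by positivity) (by positivity), Real.log_mul (by positivity) (by positivity),
    Real.log_pow, Real.log_pow, Real.log_pow, Real.log_mul h2.ne' h3.ne',
    Real.log_prod fun j _ => (ha j).ne', Real.log_prod fun l _ => (h1 _ (hω l)).ne']
  push_cast
  ring

theorem Ph_crit (hc : ∀ τ, 0 < c τ) (hd : ∀ j b, 0 < d j b) (hq : 0 < q)
    {Δ : (Fin r → Fin q → ℝ) → ℝ} {ω : Fin r → Fin q → ℝ} (hω : ∀ l j, 0 < ω l j) (h0 : Δ ω ≠ 0)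
    {a : Fin q → ℝ} (ha : ∀ j, 0 < a j)
    (hM : ∀ a', (∀ j, 0 < a' j) → Ph c κ n d Δ a' ω ≤ Ph c κ n d Δ a ω) (j : Fin q) :
    q * (a j * (Dd c κ (fun b => ∑ j, a j * d j b) (d j) / Hh c κ (fun b => ∑ j, a j * d j b) +
      ∑ l, ω l j / ∑ j, a j * ω l j)) = n + r := by
  have : Nonempty (Fin q) := ⟨⟨0, hq⟩⟩
  have h1 : ∀ w : Fin q → ℝ, (∀ j, 0 < w j) → 0 < ∑ j, a j * w j := fun w hw =>
    sum_pos (fun j _ => mul_pos (ha j) (hw j)) univ_nonempty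
  have h2 := Hh_pos hc κ fun b => h1 _ fun j => hd j b
  obtain ⟨e, he⟩ : ∃ e : Fin q → ℝ, e = Pi.single j 1 := ⟨_, rfl⟩
  have sh : ∀ (s : ℝ) (w : Fin q → ℝ),
      ∑ i, (a i + s * e i) * w i = ∑ i, a i * w i + s * w j := fun s w => by
    simp [he, add_mul, sum_add_distrib, Pi.single_apply]
  have lin : ∀ u v : ℝ, 0 < u → HasDerivAt (fun s : ℝ => Real.log (u + s * v)) (v / u) 0 :=
    fun u v hu => by
    simpa using (((hasDerivAt_id (0 : ℝ)).mul_const v).const_add u).log (by simpa using hu.ne')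
  have hD := (((HasDerivAt.fun_sum fun i (_ : i ∈ univ) => lin (a i) (e i) (ha i)).const_mul
    ((n : ℝ) + r)).const_add (q * Real.log |Δ ω|)).fun_sub
    ((((Hh_deriv c κ (fun b => h1 _ fun i => hd i b) (d j)).log (by simpa using h2.ne')).fun_add
      (HasDerivAt.fun_sum fun l (_ : l ∈ univ) => lin _ (ω l j) (h1 _ (hω l)))).const_mul (q : ℝ))
  have ev : ∀ᶠ s in nhds (0 : ℝ), ∀ i, 0 < a i + s * e i := Filter.eventually_all.2 fun i =>
    ContinuousAt.eventually_lt continuousAt_const (by fun_prop) (by simpa using ha i)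
  have hz := IsLocalMax.hasDerivAt_eq_zero (ev.mono fun s hs => by
    have g1 := Ph_log (κ := κ) (n := n) hc hd hq hω h0 hs
    have g2 := Ph_log (κ := κ) (n := n) hc hd hq hω h0 ha
    have g3 := Real.log_le_log g1.1 (hM _ hs)
    rw [g1.2, g2.2] at g3
    simpa only [sh, zero_mul, add_zero] using g3) hD
  have e1 : ∑ i, e i / a i = 1 / a j := by
    simp [he, Pi.single_apply, ite_div]
  rw [e1] at hz
  simp only [zero_mul, add_zero] at hz
  have := (ha j).ne'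
  rw [mul_left_comm, ← sub_eq_zero.1 hz]
  field_simp

theorem Ph_span (hc : ∀ τ, 0 < c τ) (hd : ∀ j b, 0 < d j b) (hq : 0 < q)
    {Δ : (Fin r → Fin q → ℝ) → ℝ} {ω : Fin r → Fin q → ℝ} (hω : ∀ l j, 0 < ω l j) (h0 : Δ ω ≠ 0)
    {a : Fin q → ℝ} (ha : ∀ j, 0 < a j) {w : Fin q → ℝ} (hw : ∀ j, 0 < w j) {l : Fin r} {g : ℝ}
    (hg : Δ (Function.update ω l w) = g * Δ ω)
    (hM : Ph c κ n d Δ a (Function.update ω l w) ≤ Ph c κ n d Δ a ω) :
    g * ∑ j, a j * ω l j ≤ ∑ j, a j * w j := by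
  have : Nonempty (Fin q) := ⟨⟨0, hq⟩⟩
  have h1 : ∀ w : Fin q → ℝ, (∀ j, 0 < w j) → 0 < ∑ j, a j * w j := fun w hw =>
    sum_pos (fun j _ => mul_pos (ha j) (hw j)) univ_nonempty
  by_contra! hlt
  have g0 : 0 < g := (mul_pos_iff_of_pos_right (h1 _ (hω l))).1 ((h1 w hw).trans hlt)
  have hω' : ∀ l' j, 0 < Function.update ω l w l' j := fun l' j => by
    rcases eq_or_ne l' l with rfl | h
    · simpa using hw j
    · simpa [h] using hω l' j
  have g1 := Ph_log (κ := κ) (n := n) hc hd hq hω' (hg ▸ mul_ne_zero g0.ne' h0) ha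
  have g2 := Ph_log (κ := κ) (n := n) hc hd hq hω h0 ha
  have g3 := Real.log_le_log g1.1 hM
  have e1 : ∑ l', Real.log (∑ j, a j * Function.update ω l w l' j) =
      Real.log (∑ j, a j * w j) + ∑ l' ∈ univ.erase l, Real.log (∑ j, a j * ω l' j) := by
    rw [← add_sum_erase _ _ (mem_univ l), Function.update_self]
    exact congrArg _ (sum_congr rfl fun l' h => by rw [Function.update_of_ne (ne_of_mem_erase h)])
  rw [g1.2, g2.2, e1, ← add_sum_erase _ _ (mem_univ l), hg, abs_mul, abs_of_pos g0,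
    Real.log_mul g0.ne' (abs_pos.2 h0).ne'] at g3
  have g4 := Real.log_lt_log (h1 w hw) hlt
  rw [Real.log_mul g0.ne' (h1 _ (hω l)).ne'] at g4
  have : (0 : ℝ) < q := by exact_mod_cast hq
  nlinarith

theorem opt (hc : ∀ τ, 0 < c τ) (hκ : ∀ τ, ∑ b, κ τ b = n) (hd : ∀ j b, 0 < d j b)
    {Ω : Set (Fin q → ℝ)} (hΩ : IsCompact Ω) (hne : Ω.Nonempty) (hp : ∀ w ∈ Ω, ∀ j, 0 < w j)
    (h1 : n + finrank ℝ (Submodule.span ℝ Ω) ≤ q) (h2 : n + 2 ≤ q) :
    ∃ a : Fin q → ℝ, (∀ j, 0 < a j) ∧ ∀ j, ∀ w ∈ Ω,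
      a j * (Dd c κ (fun b => ∑ j, a j * d j b) (d j) / Hh c κ (fun b => ∑ j, a j * d j b) +
        w j / ∑ i, a i * w i) < 1 := by
  have hq : 0 < q := by omega
  have : Nonempty (Fin q) := ⟨⟨0, hq⟩⟩
  obtain ⟨f, f1, f2, f3⟩ := Submodule.exists_fun_fin_finrank_span_eq ℝ Ω
  generalize finrank ℝ (Submodule.span ℝ Ω) = r at *
  obtain ⟨π, hπ⟩ := (Fintype.linearCombination ℝ f).exists_leftInverse_of_injective
    (LinearMap.ker_eq_bot.2 (linearIndependent_iff_injective_fintypeLinearCombination.1 f3))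
  have hπ' : ∀ w ∈ Ω, Fintype.linearCombination ℝ f (π w) = w := fun w hw => by
    have : w ∈ LinearMap.range (Fintype.linearCombination ℝ f) := by
      rw [Fintype.range_linearCombination, f2]
      exact Submodule.subset_span hw
    obtain ⟨v, rfl⟩ := this
    rw [show π (Fintype.linearCombination ℝ f v) = v from LinearMap.congr_fun hπ v]
  have hr : 0 < r := Nat.pos_of_ne_zero fun h => by
    subst h
    obtain ⟨w, hw⟩ := hne
    have := hp w hw ⟨0, hq⟩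
    rw [← hπ' w hw, Subsingleton.elim (π w) 0, map_zero] at this
    exact lt_irrefl _ this
  have πc := π.continuous_of_finiteDimensional
  obtain ⟨a, ω, ha, hω, h0, hM⟩ := Ph_max hc hκ hd hq hr hΩ hp
    (Δ := fun ω => (Matrix.of fun l => π (ω l)).det)
    (Continuous.matrix_det (continuous_pi fun l => πc.comp (continuous_apply l))) f1 (by
      have : (Matrix.of fun l => π (f l)) = 1 := by
        ext l m
        have := LinearMap.congr_fun hπ (Pi.single l 1)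
        simp only [LinearMap.comp_apply, Fintype.linearCombination_apply_single, one_smul,
          LinearMap.id_apply] at this
        simp [this, Matrix.one_apply, Pi.single_apply, eq_comm]
      simp [this])
  have hω' : ∀ l j, 0 < ω l j := fun l => hp _ (hω l)
  refine ⟨a, ha, fun j w hw => ?_⟩
  have k1 := Ph_crit hc hd hq hω' h0 ha (fun a' h => hM a' ω h hω) j
  have dp : ∀ w : Fin q → ℝ, (∀ j, 0 < w j) → 0 < ∑ j, a j * w j := fun w hw =>
    sum_pos (fun j _ => mul_pos (ha j) (hw j)) univ_nonempty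
  obtain ⟨M, hMe⟩ : ∃ M : Matrix (Fin r) (Fin r) ℝ, M = Matrix.of fun l => π (ω l) := ⟨_, rfl⟩
  obtain ⟨g, hg⟩ : ∃ g : Fin r → ℝ, π w = ∑ l, g l • M l := ⟨Matrix.vecMul (π w) M⁻¹, by
    rw [← Matrix.vecMul_eq_sum, Matrix.vecMul_vecMul, Matrix.nonsing_inv_mul _ (hMe ▸ h0.isUnit),
      Matrix.vecMul_one]⟩
  have hw1 : w = ∑ l, g l • ω l := by
    rw [← hπ' w hw, hg, map_sum]
    exact sum_congr rfl fun l _ => by
      rw [map_smul, hMe]
      exact congrArg _ (hπ' _ (hω l))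
  have k2 : ∀ l, g l * ∑ j, a j * ω l j ≤ ∑ j, a j * w j := fun l =>
    Ph_span (n := n) (κ := κ) hc hd hq hω' h0 ha (hp w hw) (by
      have := Matrix.det_updateRow_sum M l g
      rw [← hg, hMe] at this
      refine Eq.trans (congrArg Matrix.det ?_) this
      ext l' m
      rcases eq_or_ne l' l with rfl | h
      · simp
      · simp [h]) (hM a _ ha fun l' => by
      rcases eq_or_ne l' l with rfl | h
      · simpa using hw
      · simpa [h] using hω l')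
  have k3 : ∑ l, g l * ∑ j, a j * ω l j = ∑ j, a j * w j := by
    conv_rhs => rw [hw1]
    simp only [Finset.sum_apply, Pi.smul_apply, smul_eq_mul, mul_sum]
    rw [sum_comm]
    exact sum_congr rfl fun _ _ => sum_congr rfl fun _ _ => by ring
  have wp := dp w (hp w hw)
  have k4 : w j / ∑ i, a i * w i = ∑ l, g l * ω l j / ∑ i, a i * w i := by
    rw [← sum_div]
    congr 1
    conv_lhs => rw [hw1]
    simp
  have k5 : ∀ l, g l * ω l j / ∑ i, a i * w i ≤ ω l j / ∑ i, a i * ω l i := fun l => by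
    rw [div_le_div_iff₀ wp (dp _ (hω' l))]
    nlinarith [k2 l, hω' l j]
  have q0 : (0 : ℝ) < q := by exact_mod_cast hq
  have aj := ha j
  rcases (show r = 1 ∨ 2 ≤ r by omega) with h | h
  · have k6 := sum_le_sum fun l (_ : l ∈ univ) => k5 l
    have : (n : ℝ) + r < q := by exact_mod_cast (by omega : n + r < q)
    rw [k4]
    refine lt_of_mul_lt_mul_left (lt_of_le_of_lt ?_ (k1.trans_lt (this.trans_eq (mul_one _).symm)))
      q0.le
    gcongr
  · obtain ⟨l, hl⟩ : ∃ l, g l * ∑ j, a j * ω l j < ∑ j, a j * w j := by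
      by_contra! hn
      have := sum_le_sum fun l (_ : l ∈ univ) => hn l
      rw [k3, sum_const, card_univ, Fintype.card_fin, nsmul_eq_mul] at this
      have h' : (2 : ℝ) ≤ r := by exact_mod_cast h
      nlinarith
    have k6 := sum_lt_sum (fun l (_ : l ∈ univ) => k5 l) ⟨l, mem_univ _, by
      rw [div_lt_div_iff₀ wp (dp _ (hω' l))]
      nlinarith [hω' l j]⟩
    have : (n : ℝ) + r ≤ q := by exact_mod_cast h1
    rw [k4]
    refine lt_of_mul_lt_mul_left (lt_of_lt_of_le ?_ (k1.trans_le (this.trans_eq (mul_one _).symm)))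
      q0.le
    gcongr

end

end Pool.Agent.Lib.MP_651af7_nt.Am2
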